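import Pool.Agent.H99.VX.Medx

/-! # [H99 VY MEDY] `medx` with `S^(1-1/(36 n²))` in place of `S` (helper6; copy of `VX/Medx`)

The points with `|F| ≤ H`, `H² ≤ S^n`, `B^k S ≤ |P| ≤ (B S^n)^E`: there are `≤ B^(E + n + 2) (1 + log S)` scales, each has `≤ B^k₀ S^(5/6)`
points (`scalex`), `1 + log S ≤ 13 S^(1/12)` and `S^(11/12) ≤ S^(1 - 1/(36 n²))`. First one chart (`|y| ≤ |x|`), then `sw e`. -/

namespace Pool.Agent.H99.VY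

open Pool.Agent.H8.AA Pool.Agent.H42.AA Pool.Agent.H99.VX

/-- one chart -/
private theorem halfy (n : ℕ) (hn : 4 ≤ n) (E k : ℕ) (hf : ScaleK n k) : ∀ B : ℕ, 2 ≤ B → ∀ (e : ℕ → ℕ → ℤ), Ir n e →
    (∀ a b, a + b = n → |e a b| ≤ (B : ℤ)) → ∀ (S H : ℕ), 1 ≤ S → 1 ≤ H → H ^ 2 ≤ S ^ n →
    (∀ a b, a + b < n → |e a b| ≤ ((S : ℤ) ^ (n - (a + b)))) → ∀ T : Finset (ℤ × ℤ),
    (∀ P ∈ T, |ev n e P.1 P.2| ≤ (H : ℤ) ∧ |P.2| ≤ |P.1| ∧ (B : ℝ) ^ (k + E + n + 6) * S ≤ (|P.1| : ℤ) ∧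
      |P.1| ≤ ((B : ℤ) * S ^ n) ^ E) →
    (T.card : ℝ) ≤ (B : ℝ) ^ (k + E + n + 6) * (S : ℝ) ^ (1 - 1 / (36 * (n : ℝ) ^ 2)) := by
  intro B hB e h hB1 S H hS hH hHS hb T hT
  have hB' : (2 : ℝ) ≤ (B : ℝ) := by exact_mod_cast hB
  have hB1' : (1 : ℝ) ≤ (B : ℝ) := by linarith
  have hlogB : 0 ≤ Real.log B := Real.log_nonneg (by linarith)
  have hlogB' : Real.log B ≤ B := (Real.log_le_sub_one_of_pos (by linarith)).trans (by linarith)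
  have hBk : (1 : ℝ) ≤ (B : ℝ) ^ k := one_le_pow₀ hB1'
  set L₀ : ℝ := 2 * E * (Real.log B + n) + 1 with hL₀
  have hL₀1 : 1 ≤ L₀ := by
    rw [hL₀]
    have : 0 ≤ 2 * (E : ℝ) * (Real.log B + n) := by positivity
    linarith
  -- the constant
  have hLB : L₀ ≤ (B : ℝ) ^ (E + n + 2) := by
    have hE : ((E : ℝ) + 1) ≤ (B : ℝ) ^ E := by
      have h1 : ((E : ℝ) + 1) ≤ (2 : ℝ) ^ E := by exact_mod_cast Nat.lt_two_pow_self (n := E)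
      exact h1.trans (pow_le_pow_left₀ (by norm_num) hB' E)
    have hN : ((n : ℝ) + 1) ≤ (B : ℝ) ^ n := by
      have h1 : ((n : ℝ) + 1) ≤ (2 : ℝ) ^ n := by exact_mod_cast Nat.lt_two_pow_self (n := n)
      exact h1.trans (pow_le_pow_left₀ (by norm_num) hB' n)
    have hn0 : (0 : ℝ) ≤ (n : ℝ) := Nat.cast_nonneg _
    have hE0 : (0 : ℝ) ≤ (E : ℝ) := Nat.cast_nonneg _
    have h2 : L₀ ≤ 2 * (E + 1) * (B * (n + 1)) := by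
      rw [hL₀]
      have h3 : Real.log B + n ≤ B * (n + 1) := by nlinarith
      have h4 : (1 : ℝ) ≤ B * (n + 1) := by nlinarith
      nlinarith
    have h5 : 2 * ((E : ℝ) + 1) * (B * (n + 1)) ≤ B * (B : ℝ) ^ E * (B * (B : ℝ) ^ n) := by
      gcongr
    calc L₀ ≤ _ := h2
      _ ≤ _ := h5
      _ = (B : ℝ) ^ (E + n + 2) := by ring
  have h13B : (13 : ℝ) ≤ (B : ℝ) ^ 4 := by
    have h1 : (2 : ℝ) ^ 4 ≤ (B : ℝ) ^ 4 := pow_le_pow_left₀ (by norm_num) hB' 4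
    linarith
  have hS' : (1 : ℝ) ≤ (S : ℝ) := by exact_mod_cast hS
  have hS0 : (0 : ℝ) < (S : ℝ) := by linarith
  have hlogS : 0 ≤ Real.log S := Real.log_nonneg hS'
  have h2K : 2 * (B : ℝ) ^ k ≤ (B : ℝ) ^ (k + E + n + 6) := by
    have h1 : (B : ℝ) ^ (k + 1) ≤ (B : ℝ) ^ (k + E + n + 6) := pow_le_pow_right₀ hB1' (by omega)
    have h2 : 2 * (B : ℝ) ^ k ≤ (B : ℝ) ^ (k + 1) := by
      rw [pow_succ']
      exact mul_le_mul_of_nonneg_right hB' (by positivity)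
    exact h2.trans h1
  set N : ℕ := ⌊2 * (E : ℝ) * (Real.log B + n * Real.log S)⌋₊ + 1 with hN
  have hpt : ∀ P ∈ T, P.1 ≠ 0 ∧ (B : ℝ) ^ k * S ≤ (2 : ℝ) ^ sc P.1 ∧ sc P.1 < N := by
    intro P hP
    obtain ⟨h1, h2, h3, h4⟩ := hT P hP
    have h3' : 2 * (B : ℝ) ^ k * S ≤ |(P.1 : ℝ)| := by
      rw [Int.cast_abs] at h3
      exact (mul_le_mul_of_nonneg_right h2K hS0.le).trans h3
    have hx0 : 0 < |(P.1 : ℝ)| := by
      have : 0 < 2 * (B : ℝ) ^ k * (S : ℝ) := by positivity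
      linarith
    have hx : P.1 ≠ 0 := by
      intro h5
      rw [h5] at hx0
      simp at hx0
    have h5 := sc_le hx
    have h6 := lt_sc P.1
    refine ⟨hx, ?_, ?_⟩
    · linarith
    · rw [hN, Nat.lt_succ_iff]
      apply Nat.le_floor
      have h7 : |(P.1 : ℝ)| ≤ ((B : ℝ) * (S : ℝ) ^ n) ^ E := by exact_mod_cast h4
      have h8 : (2 : ℝ) ^ sc P.1 ≤ ((B : ℝ) * (S : ℝ) ^ n) ^ E := h5.trans h7
      have hB0 : (B : ℝ) ≠ 0 := by positivity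
      have hSn : (S : ℝ) ^ n ≠ 0 := by positivity
      have h9 : (sc P.1 : ℝ) * Real.log 2 ≤ E * (Real.log B + n * Real.log S) := by
        have h10 := Real.log_le_log (by positivity) h8
        rw [Real.log_pow, Real.log_pow, Real.log_mul hB0 hSn, Real.log_pow] at h10
        exact h10
      have h11 : (1 : ℝ) / 2 ≤ Real.log 2 := by
        have := Real.log_two_gt_d9
        linarith
      have h12 : (0 : ℝ) ≤ (sc P.1 : ℝ) := Nat.cast_nonneg _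
      nlinarith
  have hmaps : ∀ P ∈ T, sc P.1 ∈ Finset.range N := fun P hP => Finset.mem_range.2 (hpt P hP).2.2
  have hNL : (N : ℝ) ≤ L₀ * (1 + Real.log S) := by
    have h0 : 0 ≤ 2 * (E : ℝ) * (Real.log B + n * Real.log S) := by positivity
    have h1 := Nat.floor_le h0
    rw [hN, hL₀]
    push_cast
    have h2 : 0 ≤ 2 * (E : ℝ) * (Real.log B * Real.log S + n) := by positivity
    nlinarith
  have h56 : 0 ≤ (B : ℝ) ^ k * (S : ℝ) ^ (5 / 6 : ℝ) := by positivity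
  have hcard : (T.card : ℝ) ≤ ∑ s ∈ Finset.range N, (B : ℝ) ^ k * (S : ℝ) ^ (5 / 6 : ℝ) := by
    rw [Finset.card_eq_sum_card_fiberwise hmaps]
    push_cast
    refine Finset.sum_le_sum fun s _ => ?_
    rcases (T.filter fun P => sc P.1 = s).eq_empty_or_nonempty with h0 | ⟨Q, hQ⟩
    · rw [h0, Finset.card_empty]
      exact_mod_cast h56
    · rw [Finset.mem_filter] at hQ
      apply hf B hB e h hB1 S H hS hH hHS hb s
      · rw [← hQ.2]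
        exact (hpt Q hQ.1).2.1
      · intro P hP
        rw [Finset.mem_filter] at hP
        obtain ⟨h1, h2, _, _⟩ := hT P hP.1
        exact ⟨h1, h2, hP.2⟩
  rw [Finset.sum_const, Finset.card_range, nsmul_eq_mul] at hcard
  have hlog : 1 + Real.log S ≤ 13 * (S : ℝ) ^ (1 / 12 : ℝ) := by
    have h1 := Real.log_le_rpow_div hS0.le (show (0 : ℝ) < 1 / 12 by norm_num)
    have h2 : (1 : ℝ) ≤ (S : ℝ) ^ (1 / 12 : ℝ) := Real.one_le_rpow hS' (by norm_num)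
    have h3 : (S : ℝ) ^ (1 / 12 : ℝ) / (1 / 12) = 12 * (S : ℝ) ^ (1 / 12 : ℝ) := by ring
    rw [h3] at h1
    linarith
  have hSS : (S : ℝ) ^ (1 / 12 : ℝ) * (S : ℝ) ^ (5 / 6 : ℝ) ≤ (S : ℝ) ^ (1 - 1 / (36 * (n : ℝ) ^ 2)) := by
    rw [← Real.rpow_add hS0]
    refine Real.rpow_le_rpow_of_exponent_le hS' ?_
    have hn4 : (4 : ℝ) ≤ n := by exact_mod_cast hn
    have h1 : 1 / (36 * (n : ℝ) ^ 2) ≤ 1 / 12 := by
      refine one_div_le_one_div_of_le (by norm_num) ?_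
      nlinarith
    linarith
  calc (T.card : ℝ) ≤ N * ((B : ℝ) ^ k * (S : ℝ) ^ (5 / 6 : ℝ)) := hcard
    _ ≤ (L₀ * (13 * (S : ℝ) ^ (1 / 12 : ℝ))) * ((B : ℝ) ^ k * (S : ℝ) ^ (5 / 6 : ℝ)) := by
        apply mul_le_mul_of_nonneg_right _ h56
        exact hNL.trans (mul_le_mul_of_nonneg_left hlog (by linarith))
    _ = 13 * L₀ * (B : ℝ) ^ k * ((S : ℝ) ^ (1 / 12 : ℝ) * (S : ℝ) ^ (5 / 6 : ℝ)) := by ring
    _ ≤ (B : ℝ) ^ 4 * (B : ℝ) ^ (E + n + 2) * (B : ℝ) ^ k * (S : ℝ) ^ (1 - 1 / (36 * (n : ℝ) ^ 2)) := by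
        refine mul_le_mul ?_ hSS (by positivity) (by positivity)
        refine mul_le_mul_of_nonneg_right ?_ (by positivity)
        exact mul_le_mul h13B hLB (by linarith) (by positivity)
    _ = (B : ℝ) ^ (k + E + n + 6) * (S : ℝ) ^ (1 - 1 / (36 * (n : ℝ) ^ 2)) := by ring

/-- `medy` from `scalex`, with the exponents -/
theorem medyk (n : ℕ) (hn : 4 ≤ n) (E k l : ℕ) (hf : ScaleK n k) (hl : k + E + n + 7 ≤ l) : ∀ B : ℕ, 2 ≤ B → ∀ (e : ℕ → ℕ → ℤ), Ir n e →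
    (∀ a b, a + b = n → |e a b| ≤ (B : ℤ)) → ∀ (S H : ℕ), 1 ≤ S → 1 ≤ H → H ^ 2 ≤ S ^ n →
    (∀ a b, a + b < n → |e a b| ≤ ((S : ℤ) ^ (n - (a + b)))) → ∀ T : Finset (ℤ × ℤ),
    (∀ P ∈ T, |ev n e P.1 P.2| ≤ (H : ℤ) ∧ (B : ℝ) ^ l * S ≤ (max |P.1| |P.2| : ℤ) ∧
      max |P.1| |P.2| ≤ ((B : ℤ) * S ^ n) ^ E) → (T.card : ℝ) ≤ (B : ℝ) ^ l * (S : ℝ) ^ (1 - 1 / (36 * (n : ℝ) ^ 2)) := by
  have hh := halfy n hn E k hf
  intro B hB e h hB1 S H hS hH hHS hb T hT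
  have hB' : (2 : ℝ) ≤ (B : ℝ) := by exact_mod_cast hB
  have hB1' : (1 : ℝ) ≤ (B : ℝ) := by linarith
  have hS0 : (0 : ℝ) ≤ (S : ℝ) := Nat.cast_nonneg _
  have hkk : (B : ℝ) ^ (k + E + n + 6) * S ≤ (B : ℝ) ^ l * S :=
    mul_le_mul_of_nonneg_right (pow_le_pow_right₀ hB1' (by omega)) hS0
  have h1 := hh B hB e h hB1 S H hS hH hHS hb (T.filter fun P => |P.2| ≤ |P.1|) (by
    intro P hP
    rw [Finset.mem_filter] at hP
    obtain ⟨h2, h3, h4⟩ := hT P hP.1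
    rw [max_eq_left hP.2] at h3 h4
    exact ⟨h2, hP.2, hkk.trans h3, h4⟩)
  have hbs : ∀ a b, a + b < n → |sw e a b| ≤ ((S : ℤ) ^ (n - (a + b))) := by
    intro a b hab
    have h := hb b a (by omega)
    rw [Nat.add_comm b a] at h
    exact h
  have hBs : ∀ a b, a + b = n → |sw e a b| ≤ (B : ℤ) := by
    intro a b hab
    exact hB1 b a (by omega)
  have h2 := hh B hB (sw e) (ir_sw n (by omega) e h) hBs S H hS hH hHS hbs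
    ((T.filter fun P => ¬ |P.2| ≤ |P.1|).image Prod.swap) (by
    intro Q hQ
    rw [Finset.mem_image] at hQ
    obtain ⟨P, hP, rfl⟩ := hQ
    rw [Finset.mem_filter] at hP
    obtain ⟨h2, h3, h4⟩ := hT P hP.1
    have h5 : |P.1| ≤ |P.2| := (not_le.1 hP.2).le
    rw [max_eq_right h5] at h3 h4
    refine ⟨?_, h5, hkk.trans h3, h4⟩
    show |ev n (sw e) P.2 P.1| ≤ (H : ℤ)
    rw [ev_sw]
    exact h2)
  rw [Finset.card_image_of_injective _ Prod.swap_injective] at h2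
  have h3 : T.card = (T.filter fun P => |P.2| ≤ |P.1|).card +
      (T.filter fun P => ¬ |P.2| ≤ |P.1|).card :=
    (Finset.card_filter_add_card_filter_not _).symm
  rw [h3]
  push_cast
  obtain ⟨Z, hZ⟩ : ∃ Z : ℝ, Z = (S : ℝ) ^ (1 - 1 / (36 * (n : ℝ) ^ 2)) := ⟨_, rfl⟩
  rw [← hZ] at h1 h2 ⊢
  have hZ0 : 0 ≤ Z := by rw [hZ]; positivity
  have h4 : 2 * ((B : ℝ) ^ (k + E + n + 6) * Z) ≤ (B : ℝ) ^ l * Z := by
    have h5 : (B : ℝ) ^ (k + E + n + 6 + 1) * Z ≤ (B : ℝ) ^ l * Z :=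
      mul_le_mul_of_nonneg_right (pow_le_pow_right₀ hB1' (by omega)) hZ0
    refine le_trans ?_ h5
    rw [pow_succ' (B : ℝ) (k + E + n + 6), mul_assoc]
    exact mul_le_mul_of_nonneg_right hB' (by positivity)
  linarith

/-- `medy` with an explicit exponent -/
theorem medye (n : ℕ) (hn : 4 ≤ n) (E : ℕ) : ∀ B : ℕ, 2 ≤ B → ∀ (e : ℕ → ℕ → ℤ), Ir n e →
    (∀ a b, a + b = n → |e a b| ≤ (B : ℤ)) → ∀ (S H : ℕ), 1 ≤ S → 1 ≤ H → H ^ 2 ≤ S ^ n →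
    (∀ a b, a + b < n → |e a b| ≤ ((S : ℤ) ^ (n - (a + b)))) → ∀ T : Finset (ℤ × ℤ),
    (∀ P ∈ T, |ev n e P.1 P.2| ≤ (H : ℤ) ∧ (B : ℝ) ^ (41 * n ^ 2 + E) * S ≤ (max |P.1| |P.2| : ℤ) ∧
      max |P.1| |P.2| ≤ ((B : ℤ) * S ^ n) ^ E) →
    (T.card : ℝ) ≤ (B : ℝ) ^ (41 * n ^ 2 + E) * (S : ℝ) ^ (1 - 1 / (36 * (n : ℝ) ^ 2)) :=
  medyk n hn E (40 * n ^ 2) _ (scalexe n hn) (by nlinarith)

theorem medy (n : ℕ) (hn : 4 ≤ n) (E : ℕ) : ∃ k : ℕ, ∀ B : ℕ, 2 ≤ B → ∀ (e : ℕ → ℕ → ℤ), Ir n e →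
    (∀ a b, a + b = n → |e a b| ≤ (B : ℤ)) → ∀ (S H : ℕ), 1 ≤ S → 1 ≤ H → H ^ 2 ≤ S ^ n →
    (∀ a b, a + b < n → |e a b| ≤ ((S : ℤ) ^ (n - (a + b)))) → ∀ T : Finset (ℤ × ℤ),
    (∀ P ∈ T, |ev n e P.1 P.2| ≤ (H : ℤ) ∧ (B : ℝ) ^ k * S ≤ (max |P.1| |P.2| : ℤ) ∧
      max |P.1| |P.2| ≤ ((B : ℤ) * S ^ n) ^ E) → (T.card : ℝ) ≤ (B : ℝ) ^ k * (S : ℝ) ^ (1 - 1 / (36 * (n : ℝ) ^ 2)) :=
  ⟨_, medye n hn E⟩

end Pool.Agent.H99.VY
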