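import Pool.Agent.H99.VX.Smx

/-! # [H99 VY BADX] The integer points over the `x` with a small discriminant (helper6; copy of `VX/Smx`)

The discriminant of `F(x,·)` is a polynomial in `x` of degree exactly `n(n-1)`: it is `≤ Y^(n(n-1))` in absolute value for at most
`n(n-1)(2Y+1)` integers `x` (`lin`); the rest is the proof of `sm4e`. -/

namespace Pool.Agent.H99.VY

open Polynomial Pool.Agent.H8.AA Pool.Agent.H99.UC Pool.Agent.H99.VX Finset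

/-- `sm4e` with few `x` (small discriminant) in place of small `x` -/
theorem bade (n : ℕ) (hn : 2 ≤ n) (e : ℕ → ℕ → ℤ) (hI : Ir n e) (a M : ℝ) (hae : |((e 0 n : ℤ) : ℝ)| = a)
    (hM : M = ((n * (n - 1) : ℕ) : ℝ)) (R H : ℝ) (hR : 1 ≤ R) (hH : 1 ≤ H) (T : Finset (ℤ × ℤ))
    (hT : ∀ P ∈ T, |((ev n e P.1 P.2 : ℤ) : ℝ)| ≤ H ∧ |(((dis n e).eval P.1 : ℤ) : ℝ)| ≤ R ^ (n * (n - 1))) :
    (T.card : ℝ) ≤ (6 * n * M + 2 * n * (M * (8 * a + 2))) * (R + H ^ (2 / (n : ℝ)) * (1 + Real.log H)) := by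
  classical
  have ha0 : 0 ≤ a := by rw [← hae]; exact abs_nonneg _
  have hM0 : 0 ≤ M := by rw [hM]; exact Nat.cast_nonneg _
  have hn1 : (n : ℝ) ≠ 0 := by
    have : n ≠ 0 := by omega
    exact_mod_cast this
  have hH0 : (0 : ℝ) < H := by linarith
  have hk0 : (0 : ℝ) ≤ n := Nat.cast_nonneg _
  have hp1 : 1 ≤ H ^ (1 / (n : ℝ)) := Real.one_le_rpow hH (by positivity)
  have hp2 : H ^ (1 / (n : ℝ)) ≤ H ^ (2 / (n : ℝ)) :=
    Real.rpow_le_rpow_of_exponent_le hH (by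
      refine div_le_div_of_nonneg_right (by norm_num) hk0)
  -- the number `K`
  obtain ⟨K, hK⟩ : ∃ K : ℕ, K = ⌈H ^ (1 / (n : ℝ))⌉₊ := ⟨_, rfl⟩
  have hK1 : H ^ (1 / (n : ℝ)) ≤ K := by rw [hK]; exact Nat.le_ceil _
  have hK2 : (K : ℝ) ≤ 2 * H ^ (1 / (n : ℝ)) := by
    have := (Nat.ceil_lt_add_one (by linarith : (0 : ℝ) ≤ H ^ (1 / (n : ℝ)))).le
    rw [← hK] at this
    linarith
  have hK3 : 1 ≤ K := by
    have : (1 : ℝ) ≤ K := hp1.trans hK1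
    exact_mod_cast this
  -- the values of `x`
  obtain ⟨V, hV⟩ : ∃ V : Finset ℤ, V = T.image Prod.fst := ⟨_, rfl⟩
  have hVc : (V.card : ℝ) ≤ 3 * M * R := by
    have hM1 : 1 ≤ n * (n - 1) := Nat.one_le_iff_ne_zero.2 (Nat.mul_ne_zero (by omega) (by omega))
    have hMr : (0 : ℝ) < ((n * (n - 1) : ℕ) : ℝ) := by exact_mod_cast hM1
    have hR0 : (0 : ℝ) ≤ R := by linarith
    have h1 := lin (n * (n - 1)) hM1 (dis n e) (dis_deg n hn e hI) (R ^ (n * (n - 1))) (one_le_pow₀ hR) V (by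
      intro x hx
      rw [hV] at hx
      obtain ⟨P, hP, rfl⟩ := Finset.mem_image.1 hx
      exact (hT P hP).2)
    have h2 : (R ^ (n * (n - 1))) ^ (1 / ((n * (n - 1) : ℕ) : ℝ)) = R := by
      rw [← Real.rpow_natCast R (n * (n - 1)), ← Real.rpow_mul hR0, mul_one_div_cancel hMr.ne', Real.rpow_one]
    rw [h2, ← hM] at h1
    nlinarith
  -- fibres
  have hfib : ∀ x : ℤ, (T.filter fun P => P.1 = x).card = ((T.filter fun P => P.1 = x).image Prod.snd).card := by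
    intro x
    rw [Finset.card_image_of_injOn]
    intro P hP Q hQ hPQ
    have h1 := (Finset.mem_filter.1 (Finset.mem_coe.1 hP)).2
    have h2 := (Finset.mem_filter.1 (Finset.mem_coe.1 hQ)).2
    exact Prod.ext (h1.trans h2.symm) hPQ
  have hfe : ∀ x : ℤ, ∀ y ∈ (T.filter fun P => P.1 = x).image Prod.snd, |((ev n e x y : ℤ) : ℝ)| ≤ H := by
    intro x y hy
    obtain ⟨P, hP, rfl⟩ := Finset.mem_image.1 hy
    obtain ⟨h1, h2⟩ := Finset.mem_filter.1 hP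
    rw [← h2]
    exact (hT P h1).1
  have hcard : (T.card : ℝ) = ∑ x ∈ V, ((T.filter fun P => P.1 = x).card : ℝ) := by
    rw [hV]
    have := Finset.card_eq_sum_card_fiberwise (f := Prod.fst) (s := T) (t := T.image Prod.fst)
      (fun P hP => Finset.mem_coe.2 (Finset.mem_image_of_mem _ hP))
    exact_mod_cast this
  have hstep : (T.card : ℝ) ≤ ∑ x ∈ V, (n : ℝ) * (2 * (((Finset.Icc 1 K).filter fun m : ℕ => |(((dis n e).eval x : ℤ) : ℝ)| ≤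
      |((e 0 n : ℤ) : ℝ)| * ((2 / (m : ℝ)) ^ (n * (n - 1)) * H ^ (2 * (n - 1)))).card : ℝ) + 2) := by
    rw [hcard]
    refine Finset.sum_le_sum fun x _ => ?_
    rw [hfib]
    exact fibN n hn e hI.1 H hH x K hK1 _ (hfe x)
  -- swap the sums
  have hswap : ∑ x ∈ V, (((Finset.Icc 1 K).filter fun m : ℕ => |(((dis n e).eval x : ℤ) : ℝ)| ≤
      |((e 0 n : ℤ) : ℝ)| * ((2 / (m : ℝ)) ^ (n * (n - 1)) * H ^ (2 * (n - 1)))).card : ℝ) =
      ∑ m ∈ Finset.Icc 1 K, ((V.filter fun x => |(((dis n e).eval x : ℤ) : ℝ)| ≤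
        |((e 0 n : ℤ) : ℝ)| * ((2 / (m : ℝ)) ^ (n * (n - 1)) * H ^ (2 * (n - 1)))).card : ℝ) := by
    simp only [Finset.card_filter, Nat.cast_sum]
    exact Finset.sum_comm
  have hm : ∀ m ∈ Finset.Icc 1 K, ((V.filter fun x => |(((dis n e).eval x : ℤ) : ℝ)| ≤
        |((e 0 n : ℤ) : ℝ)| * ((2 / (m : ℝ)) ^ (n * (n - 1)) * H ^ (2 * (n - 1)))).card : ℝ) ≤
        M * (4 * a * H ^ (2 / (n : ℝ)) * (1 / (m : ℝ)) + 1) := by
    intro m hm
    rw [Finset.mem_Icc] at hm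
    have hmK : (m : ℝ) ≤ K := by exact_mod_cast hm.2
    have := few_xm n hn e hI H hH m hm.1 (by linarith) (V.filter fun x => |(((dis n e).eval x : ℤ) : ℝ)| ≤
        |((e 0 n : ℤ) : ℝ)| * ((2 / (m : ℝ)) ^ (n * (n - 1)) * H ^ (2 * (n - 1)))) fun x hx => (Finset.mem_filter.1 hx).2
    rw [hae, ← hM] at this
    rw [hae]
    refine this.trans (le_of_eq ?_)
    ring
  have hsum : ∑ m ∈ Finset.Icc 1 K, ((V.filter fun x => |(((dis n e).eval x : ℤ) : ℝ)| ≤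
        |((e 0 n : ℤ) : ℝ)| * ((2 / (m : ℝ)) ^ (n * (n - 1)) * H ^ (2 * (n - 1)))).card : ℝ) ≤
        M * (4 * a * H ^ (2 / (n : ℝ)) * (1 + Real.log K) + K) := by
    refine (Finset.sum_le_sum hm).trans ?_
    rw [← Finset.mul_sum, Finset.sum_add_distrib, ← Finset.mul_sum]
    simp only [Finset.sum_const, Nat.card_Icc, Nat.add_sub_cancel, nsmul_eq_mul, mul_one]
    refine mul_le_mul_of_nonneg_left ?_ hM0
    have := mul_le_mul_of_nonneg_left (harm_le K hK3) (by positivity : 0 ≤ 4 * a * H ^ (2 / (n : ℝ)))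
    linarith
  have hlogH : 0 ≤ Real.log H := Real.log_nonneg hH
  have hlogK : Real.log K ≤ 1 + Real.log H := by
    have h1 : Real.log K ≤ Real.log (2 * H ^ (1 / (n : ℝ))) :=
      Real.log_le_log (by exact_mod_cast hK3) hK2
    rw [Real.log_mul (by norm_num) (by positivity), Real.log_rpow hH0] at h1
    have h2 : Real.log 2 ≤ 1 := by
      have := Real.log_two_lt_d9
      linarith
    have h3 : 1 / (n : ℝ) * Real.log H ≤ 1 * Real.log H := by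
      refine mul_le_mul_of_nonneg_right ?_ hlogH
      rw [div_le_one (by positivity)]
      have : 1 ≤ n := by omega
      exact_mod_cast this
    linarith
  have hfin1 : 4 * a * H ^ (2 / (n : ℝ)) * (1 + Real.log K) + K ≤ (8 * a + 2) * (H ^ (2 / (n : ℝ)) * (1 + Real.log H)) := by
    have h1 : 1 + Real.log K ≤ 2 * (1 + Real.log H) := by linarith
    have h2 := mul_le_mul_of_nonneg_left h1 (by positivity : 0 ≤ 4 * a * H ^ (2 / (n : ℝ)))
    have h3 : (K : ℝ) ≤ 2 * (H ^ (2 / (n : ℝ)) * (1 + Real.log H)) := by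
      have h4 : H ^ (2 / (n : ℝ)) ≤ H ^ (2 / (n : ℝ)) * (1 + Real.log H) := by
        have : 0 ≤ H ^ (2 / (n : ℝ)) := by positivity
        nlinarith
      linarith
    have h5 : 4 * a * H ^ (2 / (n : ℝ)) * (2 * (1 + Real.log H)) = 8 * a * (H ^ (2 / (n : ℝ)) * (1 + Real.log H)) := by ring
    linarith
  have htot : (T.card : ℝ) ≤ 2 * n * (M * ((8 * a + 2) * (H ^ (2 / (n : ℝ)) * (1 + Real.log H)))) + 6 * n * M * R := by
    refine hstep.trans ?_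
    rw [← Finset.mul_sum, Finset.sum_add_distrib, ← Finset.mul_sum, hswap]
    simp only [Finset.sum_const, nsmul_eq_mul]
    have h1 := hsum.trans (mul_le_mul_of_nonneg_left hfin1 hM0)
    have h2 := mul_le_mul_of_nonneg_left h1 (by positivity : 0 ≤ 2 * (n : ℝ))
    have h3 := mul_le_mul_of_nonneg_left hVc (by positivity : 0 ≤ 2 * (n : ℝ))
    nlinarith
  have hX0 : 0 ≤ H ^ (2 / (n : ℝ)) * (1 + Real.log H) := by positivity
  have hc1 : 0 ≤ 2 * n * (M * (8 * a + 2)) := by positivity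
  have hc2 : (0 : ℝ) ≤ 6 * n * M := by positivity
  have hR0 : 0 ≤ R := by linarith
  nlinarith [mul_nonneg hc1 hR0, mul_nonneg hc2 hX0]

/-- `badx` with an explicit constant -/
theorem badxe (n : ℕ) (hn : 2 ≤ n) : ∀ B : ℕ, 2 ≤ B → ∀ e : ℕ → ℕ → ℤ, Ir n e → |e 0 n| ≤ (B : ℤ) →
    ∀ (Y H : ℝ), 1 ≤ Y → 1 ≤ H → ∀ T : Finset (ℤ × ℤ),
    (∀ P ∈ T, |((ev n e P.1 P.2 : ℤ) : ℝ)| ≤ H ∧ |(((dis n e).eval P.1 : ℤ) : ℝ)| ≤ Y ^ (n * (n - 1))) →
    (T.card : ℝ) ≤ (B : ℝ) ^ (10 * n ^ 2) * (Y + H ^ (2 / (n : ℝ)) * (1 + Real.log H)) := by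
  intro B hB e hI hb R H hR hH T hT
  obtain ⟨M, hM⟩ : ∃ M : ℝ, M = ((n * (n - 1) : ℕ) : ℝ) := ⟨_, rfl⟩
  have hM0 : 0 ≤ M := by rw [hM]; exact Nat.cast_nonneg _
  refine (bade n hn e hI _ M rfl hM R H hR hH T hT).trans ?_
  have hlogH : 0 ≤ Real.log H := Real.log_nonneg hH
  have hB2 : (2 : ℝ) ≤ B := by exact_mod_cast hB
  refine mul_le_mul_of_nonneg_right ?_ (by positivity)
  refine con_le n hn B _ hB2 ?_
  rw [← hM]
  have h1 : |((e 0 n : ℤ) : ℝ)| ≤ B := by exact_mod_cast hb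
  have h2 : M * (8 * |((e 0 n : ℤ) : ℝ)| + 2) ≤ M * (8 * (B : ℝ) + 2) :=
    mul_le_mul_of_nonneg_left (by linarith) hM0
  have h3 := mul_le_mul_of_nonneg_left h2 (by positivity : 0 ≤ 2 * (n : ℝ))
  have h4 : 0 ≤ 6 * (n : ℝ) := by positivity
  linarith

theorem badx (n : ℕ) (hn : 2 ≤ n) : ∃ k : ℕ, ∀ B : ℕ, 2 ≤ B → ∀ e : ℕ → ℕ → ℤ, Ir n e → |e 0 n| ≤ (B : ℤ) →
    ∀ (Y H : ℝ), 1 ≤ Y → 1 ≤ H → ∀ T : Finset (ℤ × ℤ),
    (∀ P ∈ T, |((ev n e P.1 P.2 : ℤ) : ℝ)| ≤ H ∧ |(((dis n e).eval P.1 : ℤ) : ℝ)| ≤ Y ^ (n * (n - 1))) →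
    (T.card : ℝ) ≤ (B : ℝ) ^ k * (Y + H ^ (2 / (n : ℝ)) * (1 + Real.log H)) :=
  ⟨_, badxe n hn⟩

end Pool.Agent.H99.VY
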