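import Pool.Agent.H99.UC.Bra

/-! # [H99 VY BRC] The branch `t = T(u)` through a root of `Φ(u₀, ·)`, near `u₀`, and its version in the plane -/

namespace Pool.Agent.H99.VY

open Polynomial Pool.Agent.H6.AB Pool.Agent.H99.UC

/-- `Φ_t` is Lipschitz in `u` -/
theorem Pht_lipu (n : ℕ) {b : ℕ → ℕ → ℝ} {B : ℝ} (hB : 0 ≤ B) (hb : ∀ k ≤ n, ∀ j ≤ n, |b k j| ≤ B) {u v t : ℝ}
    (hu : |u| ≤ 1) (hv : |v| ≤ 1) (ht : |t| ≤ 2) : |Pht n b u t - Pht n b v t| ≤ 4 * (cD n * B) * |u - v| := by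
  rcases eq_or_ne u v with rfl | hne
  · simp
  have hpos : 0 < |u - v| := abs_pos.2 (sub_ne_zero.2 hne)
  have huv : |u - v| ≤ 2 := (abs_sub _ _).trans (by linarith)
  -- the increment
  obtain ⟨h, hh, hth⟩ : ∃ h : ℝ, |h| = |u - v| ∧ |t + h| ≤ 2 := by
    rw [abs_le] at ht
    rcases le_total 0 t with h0 | h0
    · refine ⟨-|u - v|, by rw [abs_neg, abs_abs], ?_⟩
      rw [abs_le]
      constructor <;> linarith
    · refine ⟨|u - v|, by rw [abs_abs], ?_⟩
      rw [abs_le]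
      constructor <;> linarith
  have h1 := Ph_tay2 n hB hb hu hv ht hth
  have h2 := Ph_tay2 n hB hb hu hu ht hth
  have h3 := Ph_tay2 n hB hb hu hv ht ht
  have hsq : h ^ 2 = |u - v| * |u - v| := by rw [← hh, ← sq, sq_abs]
  have hsq' : (u - v) ^ 2 = |u - v| * |u - v| := by rw [← sq, sq_abs]
  have h4 : |Pht n b u t - Pht n b v t| * |u - v| ≤ 4 * (cD n * B) * |u - v| * |u - v| := by
    rw [← hh, ← abs_mul, hh]
    have e1 : (Pht n b u t - Pht n b v t) * h =
        (Ph n b u (t + h) - Ph n b v t - (Phu n b v t * (u - v) + Pht n b v t * (t + h - t))) -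
        (Ph n b u (t + h) - Ph n b u t - (Phu n b u t * (u - u) + Pht n b u t * (t + h - t))) -
        (Ph n b u t - Ph n b v t - (Phu n b v t * (u - v) + Pht n b v t * (t - t))) := by ring
    rw [e1]
    refine (abs_sub _ _).trans ((add_le_add (abs_sub _ _) le_rfl).trans ?_)
    refine (add_le_add (add_le_add h1 h2) h3).trans (le_of_eq ?_)
    have e2 : t + h - t = h := by ring
    rw [e2, hsq, hsq', sub_self, sub_self]
    ring
  exact le_of_mul_le_mul_right h4 hpos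

/-- **the branch**, near `u₀` -/
theorem branchc (n : ℕ) {b : ℕ → ℕ → ℝ} {B : ℝ} (hB : 0 < B) (hb : ∀ k ≤ n, ∀ j ≤ n, |b k j| ≤ B) {u₀ r c θ η : ℝ} (hc : 0 < c)
    (hθ : 0 < θ) (hθ1 : θ ≤ 1) (hr2 : |r| + θ ≤ 2) (hr : Ph n b u₀ r = 0) (hd : ∀ t, |t - r| ≤ θ → c ≤ |Pht n b u₀ t|)
    (hη0 : 0 ≤ η) (hη1 : |u₀| + η ≤ 1) (hη : 4 * (cD n * B) * η ≤ c * θ / 4) :
    ∃ T m : ℝ → ℝ, (∀ u, |u - u₀| ≤ η → Ph n b u (T u) = 0 ∧ m u * Pht n b u (T u) = -Phu n b u (T u)) ∧
      (∀ u v, |u - u₀| ≤ η → |v - u₀| ≤ η → |T v - T u - m u * (v - u)| ≤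
        (2 / c * (cD n * B * (1 + (2 / c * (cD n * B)) ^ 2))) * (v - u) ^ 2) ∧
      (∀ u t, |u - u₀| ≤ η → |t - r| ≤ θ → c / 2 * |t - T u| ≤ |Ph n b u t|) := by
  have hu₀ : |u₀| ≤ 1 := by linarith
  have hin : ∀ u, |u - u₀| ≤ η → |u| ≤ 1 := by
    intro u hu
    have := abs_add_le (u - u₀) u₀
    rw [sub_add_cancel] at this
    linarith
  have hD := cD_pos n
  have hDB : 0 < cD n * B := by positivity
  have h2 : ∀ t, |t - r| ≤ θ → |t| ≤ 2 := by
    intro t ht
    have : |t| ≤ |t - r| + |r| := by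
      have := abs_add_le (t - r) r
      rwa [sub_add_cancel] at this
    linarith
  have hlow : ∀ u t, |u - u₀| ≤ η → |t - r| ≤ θ → c / 2 ≤ |Pht n b u t| := by
    intro u t hu ht
    have k1 := Pht_lipu n hB.le hb (hin u hu) hu₀ (h2 t ht)
    have k2 := hd t ht
    have k3 : 4 * (cD n * B) * |u - u₀| ≤ c / 4 := by
      have : 4 * (cD n * B) * |u - u₀| ≤ 4 * (cD n * B) * η := mul_le_mul_of_nonneg_left hu (by positivity)
      have : c * θ / 4 ≤ c / 4 := by nlinarith
      linarith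
    have k4 : |Pht n b u₀ t| ≤ |Pht n b u t| + |Pht n b u t - Pht n b u₀ t| := by
      have := abs_sub (Pht n b u t) (Pht n b u t - Pht n b u₀ t)
      have e : Pht n b u t - (Pht n b u t - Pht n b u₀ t) = Pht n b u₀ t := by ring
      rwa [e] at this
    linarith
  have hmono : ∀ u t s, |u - u₀| ≤ η → |t - r| ≤ θ → |s - r| ≤ θ → c / 2 * |t - s| ≤ |Ph n b u t - Ph n b u s| := by
    have aux : ∀ u t s, |u - u₀| ≤ η → |t - r| ≤ θ → |s - r| ≤ θ → s < t → c / 2 * |t - s| ≤ |Ph n b u t - Ph n b u s| := by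
      intro u t s hu ht hs hst
      have hcont : Continuous (fun t => Ph n b u t) := continuous_iff_continuousAt.2 fun t => (hasDerivAt_Ph n b u t).continuousAt
      obtain ⟨ξ, hξ, hξ'⟩ := exists_hasDerivAt_eq_slope (fun t => Ph n b u t) (fun t => Pht n b u t) hst hcont.continuousOn
        (fun x _ => hasDerivAt_Ph n b u x)
      rw [abs_le] at ht hs
      have k1 := hlow u ξ hu (by rw [abs_le]; constructor <;> linarith [hξ.1, hξ.2])
      have hpos : 0 < t - s := by linarith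
      have k2 : Ph n b u t - Ph n b u s = Pht n b u ξ * (t - s) := by
        rw [hξ']
        field_simp
      rw [k2, abs_mul]
      exact mul_le_mul_of_nonneg_right k1 (abs_nonneg _)
    intro u t s hu ht hs
    rcases lt_trichotomy s t with h | h | h
    · exact aux u t s hu ht hs h
    · rw [h]
      simp
    · have := aux u s t hu hs ht h
      rw [abs_sub_comm t s, abs_sub_comm (Ph n b u t)]
      exact this
  have hex : ∀ u, ∃ t, |u - u₀| ≤ η → |t - r| ≤ θ ∧ Ph n b u t = 0 := by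
    intro u
    by_cases hu : |u - u₀| ≤ η
    · obtain ⟨t, ht, ht'⟩ := root_any (fun t => Ph n b u₀ t) (fun t => Pht n b u₀ t) (fun t => Ph n b u t) r c θ (c * θ / 4) hc hθ
        (fun t => hasDerivAt_Ph n b u₀ t) hr hd (continuous_iff_continuousAt.2 fun t => (hasDerivAt_Ph n b u t).continuousAt)
        (by nlinarith [mul_pos hc hθ]) (by
          intro t ht
          have k1 := Ph_lipu n hB.le hb (hin u hu) hu₀ (h2 t ht)
          refine k1.trans ((mul_le_mul_of_nonneg_left hu hDB.le).trans (le_trans ?_ hη))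
          have : 0 ≤ cD n * B * η := by positivity
          linarith)
      exact ⟨t, fun _ => ⟨ht, ht'⟩⟩
    · exact ⟨0, fun h => absurd h hu⟩
  choose T hT using hex
  refine ⟨T, fun u => -Phu n b u (T u) / Pht n b u (T u), ?_, ?_, ?_⟩
  · intro u hu
    refine ⟨(hT u hu).2, ?_⟩
    have k1 := hlow u (T u) hu (hT u hu).1
    have k2 : Pht n b u (T u) ≠ 0 := by
      intro h
      rw [h, abs_zero] at k1
      linarith
    field_simp
  · intro u v hu hv
    obtain ⟨a1, a2⟩ := hT u hu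
    obtain ⟨b1, b2⟩ := hT v hv
    have k1 := hlow u (T u) hu a1
    have k2 : Pht n b u (T u) ≠ 0 := by
      intro h
      rw [h, abs_zero] at k1
      linarith
    have k3 := Ph_tay2 n hB.le hb (hin v hv) (hin u hu) (h2 _ a1) (h2 _ b1)
    rw [a2, b2] at k3
    have k4 := hmono v (T v) (T u) hv b1 a1
    rw [b2, zero_sub, abs_neg] at k4
    have k5 := Ph_lipu n hB.le hb (hin v hv) (hin u hu) (h2 _ a1)
    rw [a2, sub_zero] at k5
    have k6 : |T v - T u| ≤ 2 / c * (cD n * B) * |v - u| := by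
      have : c / 2 * |T v - T u| ≤ cD n * B * |v - u| := k4.trans k5
      rw [div_mul_eq_mul_div, div_mul_eq_mul_div, le_div_iff₀ hc]
      linarith
    have k7 : (T v - T u) ^ 2 ≤ (2 / c * (cD n * B)) ^ 2 * (v - u) ^ 2 := by
      rw [← mul_pow, ← sq_abs (T v - T u), ← sq_abs (2 / c * (cD n * B) * (v - u))]
      refine pow_le_pow_left₀ (abs_nonneg _) ?_ 2
      rw [abs_mul, abs_of_pos (by positivity : 0 < 2 / c * (cD n * B))]
      exact k6
    have k8 : |Pht n b u (T u)| * |T v - T u - -Phu n b u (T u) / Pht n b u (T u) * (v - u)| ≤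
        cD n * B * ((v - u) ^ 2 + (T v - T u) ^ 2) := by
      rw [← abs_mul]
      have e : Pht n b u (T u) * (T v - T u - -Phu n b u (T u) / Pht n b u (T u) * (v - u)) =
          -(0 - 0 - (Phu n b u (T u) * (v - u) + Pht n b u (T u) * (T v - T u))) := by
        field_simp
        ring
      rw [e, abs_neg]
      exact k3
    have k9 : cD n * B * ((v - u) ^ 2 + (T v - T u) ^ 2) ≤ cD n * B * (1 + (2 / c * (cD n * B)) ^ 2) * (v - u) ^ 2 := by
      have : (v - u) ^ 2 + (T v - T u) ^ 2 ≤ (1 + (2 / c * (cD n * B)) ^ 2) * (v - u) ^ 2 := by linarith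
      calc cD n * B * ((v - u) ^ 2 + (T v - T u) ^ 2) ≤ cD n * B * ((1 + (2 / c * (cD n * B)) ^ 2) * (v - u) ^ 2) :=
            mul_le_mul_of_nonneg_left this hDB.le
        _ = _ := by ring
    have k10 : c / 2 * |T v - T u - -Phu n b u (T u) / Pht n b u (T u) * (v - u)| ≤
        cD n * B * (1 + (2 / c * (cD n * B)) ^ 2) * (v - u) ^ 2 :=
      ((mul_le_mul_of_nonneg_right k1 (abs_nonneg _)).trans k8).trans k9
    have k11 : 2 / c * (c / 2 * |T v - T u - -Phu n b u (T u) / Pht n b u (T u) * (v - u)|) ≤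
        2 / c * (cD n * B * (1 + (2 / c * (cD n * B)) ^ 2) * (v - u) ^ 2) := mul_le_mul_of_nonneg_left k10 (by positivity)
    have e1 : 2 / c * (c / 2 * |T v - T u - -Phu n b u (T u) / Pht n b u (T u) * (v - u)|) =
        |T v - T u - -Phu n b u (T u) / Pht n b u (T u) * (v - u)| := by field_simp
    rw [e1] at k11
    refine k11.trans (le_of_eq ?_)
    ring
  · intro u t hu ht
    obtain ⟨a1, a2⟩ := hT u hu
    have := hmono u t (T u) hu ht a1
    rwa [a2, sub_zero] at this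

/-- **the branch in the plane**: `y = Φ(x) = R T(x/R)`, `J = Φ'` -/
theorem phi_box (n : ℕ) {b : ℕ → ℕ → ℝ} {B : ℝ} (hB : 0 < B) (hb : ∀ k ≤ n, ∀ j ≤ n, |b k j| ≤ B) {u₀ r c θ η : ℝ} (hc : 0 < c)
    (hθ : 0 < θ) (hθ1 : θ ≤ 1) (hr2 : |r| + θ ≤ 2) (hr : Ph n b u₀ r = 0) (hd : ∀ t, |t - r| ≤ θ → c ≤ |Pht n b u₀ t|)
    (hη0 : 0 ≤ η) (hη1 : |u₀| + η ≤ 1) (hη : 4 * (cD n * B) * η ≤ c * θ / 4) (R C : ℝ) (hR : 0 < R)
    (hC : C = 2 / c * (cD n * B * (1 + (2 / c * (cD n * B)) ^ 2))) :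
    ∃ Φ J : ℝ → ℝ, (∀ x, |x / R - u₀| < η → HasDerivAt Φ (J x) x) ∧
      (∀ x y, |x / R - u₀| ≤ η → |y / R - u₀| ≤ η → |Φ y - Φ x - J x * (y - x)| ≤ C / R * (y - x) ^ 2) ∧
      (∀ x y, |x / R - u₀| ≤ η → |y / R - u₀| ≤ η → |J x - J y| ≤ 2 * C / R * |x - y|) ∧
      (∀ x y, |x / R - u₀| ≤ η → |y / R - r| ≤ θ → c / 2 * |y - Φ x| ≤ R * |Ph n b (x / R) (y / R)|) ∧
      (∀ x, |x / R - u₀| ≤ η → ∃ t, Ph n b (x / R) t = 0 ∧ Phu n b (x / R) t + J x * Pht n b (x / R) t = 0) := by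
  obtain ⟨T, m, h1, h2, h3⟩ := branchc n hB hb hc hθ hθ1 hr2 hr hd hη0 hη1 hη
  rw [← hC] at h2
  have hC0 : 0 ≤ C := by
    rw [hC]
    have := cD_pos n
    positivity
  have hq : ∀ x y, |x / R - u₀| ≤ η → |y / R - u₀| ≤ η → |R * T (y / R) - R * T (x / R) - m (x / R) * (y - x)| ≤
      C / R * (y - x) ^ 2 := by
    intro x y hx hy
    have k1 := h2 (x / R) (y / R) hx hy
    have e1 : R * T (y / R) - R * T (x / R) - m (x / R) * (y - x) =
        R * (T (y / R) - T (x / R) - m (x / R) * (y / R - x / R)) := by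
      field_simp
    rw [e1, abs_mul, abs_of_pos hR]
    calc R * |T (y / R) - T (x / R) - m (x / R) * (y / R - x / R)| ≤ R * (C * (y / R - x / R) ^ 2) :=
          mul_le_mul_of_nonneg_left k1 hR.le
      _ = C / R * (y - x) ^ 2 := by field_simp
  refine ⟨fun x => R * T (x / R), fun x => m (x / R), ?_, hq, ?_, ?_, ?_⟩
  · intro x hx
    have hcont : Continuous fun y : ℝ => |y / R - u₀| := ((continuous_id.div_const R).sub continuous_const).abs
    have hnhd : {y : ℝ | |y / R - u₀| < η} ∈ nhds x := (isOpen_lt hcont continuous_const).mem_nhds hx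
    rw [hasDerivAt_iff_isLittleO]
    refine Asymptotics.IsBigO.trans_isLittleO (g := fun y => ‖y - x‖ ^ 2) ?_
      (Asymptotics.isLittleO_pow_sub_sub x (m := 2) (by norm_num))
    refine Asymptotics.IsBigO.of_bound (C / R) ?_
    filter_upwards [hnhd] with y hy
    rw [Real.norm_eq_abs, Real.norm_eq_abs, Real.norm_eq_abs, sq_abs, abs_of_nonneg (sq_nonneg (y - x)), smul_eq_mul,
      mul_comm (y - x) (m (x / R))]
    exact hq x y hx.le (le_of_lt hy)
  · intro x y hx hy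
    show |m (x / R) - m (y / R)| ≤ 2 * C / R * |x - y|
    have k1 := hq x y hx hy
    have k2 := hq y x hy hx
    rcases eq_or_ne x y with rfl | hne
    · simp
    have hpos : 0 < |x - y| := abs_pos.2 (sub_ne_zero.2 hne)
    have k4 : |m (x / R) - m (y / R)| * |x - y| ≤ 2 * C / R * |x - y| * |x - y| := by
      rw [← abs_mul]
      have e : (m (x / R) - m (y / R)) * (x - y) =
          (R * T (y / R) - R * T (x / R) - m (x / R) * (y - x)) + (R * T (x / R) - R * T (y / R) - m (y / R) * (x - y)) := by ring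
      rw [e]
      refine (abs_add_le _ _).trans ((add_le_add k1 k2).trans (le_of_eq ?_))
      have e2 : |x - y| * |x - y| = (x - y) ^ 2 := by rw [← sq, sq_abs]
      rw [mul_assoc, e2]
      ring
    exact le_of_mul_le_mul_right k4 hpos
  · intro x y hx hy
    show c / 2 * |y - R * T (x / R)| ≤ R * |Ph n b (x / R) (y / R)|
    have k1 := h3 (x / R) (y / R) hx hy
    have e1 : y - R * T (x / R) = R * (y / R - T (x / R)) := by
      field_simp
    rw [e1, abs_mul, abs_of_pos hR]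
    have := mul_le_mul_of_nonneg_left k1 hR.le
    linarith
  · intro x hx
    obtain ⟨a1, a2⟩ := h1 (x / R) hx
    exact ⟨T (x / R), a1, by
      show Phu n b (x / R) (T (x / R)) + m (x / R) * Pht n b (x / R) (T (x / R)) = 0
      rw [a2]
      ring⟩

end Pool.Agent.H99.VY
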