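import Pool.Agent.H99.UC.Cel

/-! # [H99 VY GA] The polynomial in the box: `F(x,y) = R^n Φ(x/R, y/R)` -/

namespace Pool.Agent.H99.VY

open Polynomial Pool.Agent.H8.AA Pool.Agent.H6.AB Pool.Agent.H99.UC

/-- the coefficients of `F(R u, R t) / R^n` -/
noncomputable def ga (n : ℕ) (e : ℕ → ℕ → ℤ) (R : ℝ) (k j : ℕ) : ℝ :=
  if k + j ≤ n then (e k j : ℝ) / R ^ (n - (k + j)) else 0

theorem ga_le (n : ℕ) (e : ℕ → ℕ → ℤ) {R B : ℝ} (hR : 0 < R) (hB : 0 ≤ B)
    (hb : ∀ a b, a + b ≤ n → |(e a b : ℝ)| ≤ B * R ^ (n - (a + b))) : ∀ k ≤ n, ∀ j ≤ n, |ga n e R k j| ≤ B := by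
  intro k _ j _
  unfold ga
  split_ifs with h
  · rw [abs_div, abs_of_pos (pow_pos hR _), div_le_iff₀ (pow_pos hR _)]
    exact hb k j h
  · rw [abs_zero]
    exact hB

/-- sums over `k + j ≤ n`, first form -/
theorem sumA (n : ℕ) (h : ℕ → ℕ → ℝ) :
    ∑ k ∈ Finset.range (n + 1), ∑ j ∈ Finset.range (n + 1), (if k + j ≤ n then h k j else 0) =
      ∑ j ∈ Finset.range (n + 1), ∑ a ∈ Finset.range (n + 1 - j), h a j := by
  rw [Finset.sum_comm]
  refine Finset.sum_congr rfl fun j hj => ?_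
  have hj' := Finset.mem_range.1 hj
  rw [← Finset.sum_filter]
  refine Finset.sum_congr ?_ fun _ _ => rfl
  ext a
  rw [Finset.mem_filter, Finset.mem_range, Finset.mem_range]
  omega

/-- second form -/
theorem sumB (n : ℕ) (h : ℕ → ℕ → ℝ) :
    ∑ k ∈ Finset.range (n + 1), ∑ j ∈ Finset.range (k + 1), h (k - j) j =
      ∑ j ∈ Finset.range (n + 1), ∑ a ∈ Finset.range (n + 1 - j), h a j := by
  rw [Finset.sum_comm' (t' := Finset.range (n + 1)) (s' := fun j => Finset.Ico j (n + 1))]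
  · refine Finset.sum_congr rfl fun j _ => ?_
    rw [Finset.sum_Ico_eq_sum_range]
    refine Finset.sum_congr rfl fun a _ => ?_
    rw [Nat.add_sub_cancel_left]
  · intro k j
    rw [Finset.mem_range, Finset.mem_range, Finset.mem_range, Finset.mem_Ico]
    omega

/-- third form -/
theorem sumC (n : ℕ) (h : ℕ → ℕ → ℝ) :
    ∑ k ∈ Finset.range (n + 1), ∑ j ∈ Finset.range (n + 1), (if k + j ≤ n then h (n - k - j) j else 0) =
      ∑ j ∈ Finset.range (n + 1), ∑ a ∈ Finset.range (n + 1 - j), h a j := by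
  rw [sumA n (fun k j => h (n - k - j) j)]
  refine Finset.sum_congr rfl fun j hj => ?_
  have hj' := Finset.mem_range.1 hj
  rw [← Finset.sum_range_reflect]
  refine Finset.sum_congr rfl fun a ha => ?_
  have ha' := Finset.mem_range.1 ha
  congr 1
  omega

theorem ga_bs (n : ℕ) (e : ℕ → ℕ → ℤ) (R : ℝ) (φ ψ : ℕ → ℕ → ℝ) (h : ∀ a j, a + j ≤ n → φ a j = ψ (n - a - j) j) :
    ∑ k ∈ Finset.range (n + 1), ∑ j ∈ Finset.range (n + 1), ga n e R k j * φ k j =
      ∑ k ∈ Finset.range (n + 1), ∑ j ∈ Finset.range (n + 1), bs5 n e R k j * ψ k j := by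
  have e1 : ∀ k j, ga n e R k j * φ k j = if k + j ≤ n then (e k j : ℝ) / R ^ (n - (k + j)) * φ k j else 0 := by
    intro k j
    unfold ga
    split_ifs
    · rfl
    · rw [zero_mul]
  have e2 : ∀ k j, bs5 n e R k j * ψ k j =
      if k + j ≤ n then (fun a j => (e a j : ℝ) / R ^ (n - (a + j)) * φ a j) (n - k - j) j else 0 := by
    intro k j
    unfold bs5
    split_ifs with hkj
    · have h1 := h (n - k - j) j (by omega)
      have h2 : n - (n - k - j) - j = k := by omega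
      have h3 : n - (n - k - j + j) = k := by omega
      simp only
      rw [h1, h2, h3]
    · rw [zero_mul]
  simp only [e1]
  rw [sumA n (fun k j => (e k j : ℝ) / R ^ (n - (k + j)) * φ k j), ← sumC]
  simp only [e2]

theorem ev_ga (n : ℕ) (e : ℕ → ℕ → ℤ) {R : ℝ} (hR : R ≠ 0) (x y : ℤ) :
    (ev n e x y : ℝ) = R ^ n * Ph n (ga n e R) (x / R) (y / R) := by
  have e1 : (ev n e x y : ℝ) = ∑ k ∈ Finset.range (n + 1), ∑ j ∈ Finset.range (k + 1),
      (e (k - j) j : ℝ) * ((x : ℝ) ^ (k - j) * (y : ℝ) ^ j) := by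
    unfold ev
    push_cast
    rfl
  rw [e1, sumB n (fun a j => (e a j : ℝ) * ((x : ℝ) ^ a * (y : ℝ) ^ j)), ← sumA]
  unfold Ph
  rw [Finset.mul_sum]
  refine Finset.sum_congr rfl fun k _ => ?_
  rw [Finset.mul_sum]
  refine Finset.sum_congr rfl fun j _ => ?_
  unfold ga
  split_ifs with h
  · obtain ⟨m, hm⟩ : ∃ m, n = k + j + m := ⟨n - (k + j), by omega⟩
    have h1 : n - (k + j) = m := by omega
    rw [h1, hm, pow_add, pow_add, div_pow, div_pow]
    field_simp
  · rw [zero_mul, mul_zero]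

private theorem pw1 {u : ℝ} (hu : u ≠ 0) (t : ℝ) (a j m : ℕ) :
    u ^ a * t ^ j = u ^ (a + j + m) * ((1 / u) ^ m * (t / u) ^ j) := by
  rw [pow_add, pow_add, div_pow, div_pow, one_pow]
  field_simp

theorem Ph_ga (n : ℕ) (e : ℕ → ℕ → ℤ) (R : ℝ) {u : ℝ} (hu : u ≠ 0) (t : ℝ) :
    Ph n (ga n e R) u t = u ^ n * Ph n (bs5 n e R) (1 / u) (t / u) := by
  unfold Ph
  rw [Finset.mul_sum, ga_bs n e R (fun k j => u ^ k * t ^ j) (fun k j => u ^ n * ((1 / u) ^ k * (t / u) ^ j))]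
  · refine Finset.sum_congr rfl fun k _ => ?_
    rw [Finset.mul_sum]
    refine Finset.sum_congr rfl fun j _ => ?_
    ring
  · intro a j haj
    obtain ⟨m, rfl⟩ : ∃ m, n = a + j + m := ⟨n - (a + j), by omega⟩
    have h1 : a + j + m - a - j = m := by omega
    rw [h1]
    exact pw1 hu t a j m

theorem Pht_ga (n : ℕ) (hn : 1 ≤ n) (e : ℕ → ℕ → ℤ) (R : ℝ) {u : ℝ} (hu : u ≠ 0) (t : ℝ) :
    Pht n (ga n e R) u t = u ^ (n - 1) * Pht n (bs5 n e R) (1 / u) (t / u) := by
  unfold Pht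
  rw [Finset.mul_sum, ga_bs n e R (fun k j => j * u ^ k * t ^ (j - 1)) (fun k j => u ^ (n - 1) * (j * (1 / u) ^ k * (t / u) ^ (j - 1)))]
  · refine Finset.sum_congr rfl fun k _ => ?_
    rw [Finset.mul_sum]
    refine Finset.sum_congr rfl fun j _ => ?_
    ring
  · intro a j haj
    rcases Nat.eq_zero_or_pos j with rfl | hj
    · simp
    · obtain ⟨i, rfl⟩ : ∃ i, j = i + 1 := ⟨j - 1, by omega⟩
      obtain ⟨m, rfl⟩ : ∃ m, n = a + i + m + 1 := ⟨n - 1 - (a + i), by omega⟩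
      have h1 : a + i + m + 1 - a - (i + 1) = m := by omega
      have h2 := pw1 hu t a i m
      rw [h1, Nat.add_sub_cancel, Nat.add_sub_cancel]
      calc ((i + 1 : ℕ) : ℝ) * u ^ a * t ^ i = ((i + 1 : ℕ) : ℝ) * (u ^ a * t ^ i) := by ring
        _ = _ := by
            rw [h2]
            ring

theorem Phu_ga (n : ℕ) (e : ℕ → ℕ → ℤ) (R : ℝ) {u : ℝ} (hu : u ≠ 0) (t : ℝ) :
    u * Phu n (ga n e R) u t + t * Pht n (ga n e R) u t =
      n * Ph n (ga n e R) u t - u ^ n * (1 / u * Phu n (bs5 n e R) (1 / u) (t / u)) := by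
  have e1 : u * Phu n (ga n e R) u t + t * Pht n (ga n e R) u t - n * Ph n (ga n e R) u t =
      ∑ k ∈ Finset.range (n + 1), ∑ j ∈ Finset.range (n + 1), ga n e R k j * (((k : ℝ) + j - n) * (u ^ k * t ^ j)) := by
    unfold Phu Pht Ph
    rw [Finset.mul_sum, Finset.mul_sum, Finset.mul_sum, ← Finset.sum_add_distrib, ← Finset.sum_sub_distrib]
    refine Finset.sum_congr rfl fun k _ => ?_
    rw [Finset.mul_sum, Finset.mul_sum, Finset.mul_sum, ← Finset.sum_add_distrib, ← Finset.sum_sub_distrib]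
    refine Finset.sum_congr rfl fun j _ => ?_
    have h1 : u * ((k : ℝ) * u ^ (k - 1)) = k * u ^ k := by
      rcases Nat.eq_zero_or_pos k with rfl | hk
      · simp
      · obtain ⟨i, rfl⟩ : ∃ i, k = i + 1 := ⟨k - 1, by omega⟩
        rw [Nat.add_sub_cancel, pow_succ]
        ring
    have h2 : t * ((j : ℝ) * t ^ (j - 1)) = j * t ^ j := by
      rcases Nat.eq_zero_or_pos j with rfl | hk
      · simp
      · obtain ⟨i, rfl⟩ : ∃ i, j = i + 1 := ⟨j - 1, by omega⟩
        rw [Nat.add_sub_cancel, pow_succ]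
        ring
    linear_combination (ga n e R k j * t ^ j) * h1 + (ga n e R k j * u ^ k) * h2
  have e2 : u ^ n * (1 / u * Phu n (bs5 n e R) (1 / u) (t / u)) =
      ∑ k ∈ Finset.range (n + 1), ∑ j ∈ Finset.range (n + 1), bs5 n e R k j * ((k : ℝ) * (u ^ n * ((1 / u) ^ k * (t / u) ^ j))) := by
    unfold Phu
    rw [Finset.mul_sum, Finset.mul_sum]
    refine Finset.sum_congr rfl fun k _ => ?_
    rw [Finset.mul_sum, Finset.mul_sum]
    refine Finset.sum_congr rfl fun j _ => ?_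
    have h1 : 1 / u * ((k : ℝ) * (1 / u) ^ (k - 1)) = k * (1 / u) ^ k := by
      rcases Nat.eq_zero_or_pos k with rfl | hk
      · simp
      · obtain ⟨i, rfl⟩ : ∃ i, k = i + 1 := ⟨k - 1, by omega⟩
        rw [Nat.add_sub_cancel, pow_succ]
        ring
    linear_combination (bs5 n e R k j * u ^ n * (t / u) ^ j) * h1
  have e3 := ga_bs n e R (fun k j => ((k : ℝ) + j - n) * (u ^ k * t ^ j)) (fun k j => -((k : ℝ) * (u ^ n * ((1 / u) ^ k * (t / u) ^ j)))) (by
    intro a j haj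
    obtain ⟨m, rfl⟩ : ∃ m, n = a + j + m := ⟨n - (a + j), by omega⟩
    have h1 : a + j + m - a - j = m := by omega
    have h2 := pw1 hu t a j m
    rw [h1, h2]
    push_cast
    ring)
  rw [← e1] at e3
  simp only [mul_neg, Finset.sum_neg_distrib] at e3
  rw [← e2] at e3
  linarith

/-- the places where the slope takes given values, in the box -/
theorem critz (n : ℕ) (hn : 1 ≤ n) (e : ℕ → ℕ → ℤ) (h : Ir n e) (R X : ℝ) (hR : 0 < R) (hX : 0 < X) (J : ℝ → ℝ) (I : Set ℝ)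
    (hJ : ∀ x ∈ I, ∃ t, Ph n (ga n e R) (x / R) t = 0 ∧
      Phu n (ga n e R) (x / R) t + J x * Pht n (ga n e R) (x / R) t = 0)
    (a b : ℤ) (ha : 0 < a) : ∃ κ : ℝ, 1 / (4 * X) < κ ∧ κ < 1 / (2 * X) ∧ ∃ Z : Finset ℝ, Z.card ≤ 4 * n ^ 2 + 1 ∧
      ∀ x ∈ I, (a * J x - b = κ ∨ a * J x - b = -κ) → x ∈ Z := by
  classical
  -- the slope in the chart at infinity
  obtain ⟨κ, hκ1, hκ2, Z, hZc, hZ⟩ := crit5 n hn e h R X hX J (I \ {0}) (fun x hx => hx.2) hR.ne' (by
    intro x hx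
    obtain ⟨t, ht1, ht2⟩ := hJ x hx.1
    have hx0 : x ≠ 0 := hx.2
    have hu : x / R ≠ 0 := div_ne_zero hx0 hR.ne'
    have hiu : 1 / (x / R) = R / x := by field_simp
    refine ⟨t / (x / R), ?_, ?_⟩
    · have h1 := Ph_ga n e R hu t
      rw [ht1, hiu] at h1
      rcases mul_eq_zero.1 h1.symm with h2 | h2
      · exact absurd h2 (pow_ne_zero _ hu)
      · exact h2
    · have h1 := Pht_ga n hn e R hu t
      have h2 := Phu_ga n e R hu t
      rw [ht1, mul_zero, zero_sub] at h2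
      rw [hiu] at h1 h2
      have hpu : (x / R) ^ n ≠ 0 := pow_ne_zero _ hu
      have hpp : (x / R) ^ n = x / R * (x / R) ^ (n - 1) := by
        rw [← pow_succ']
        congr 1
        omega
      apply mul_left_cancel₀ hpu
      have h3 : (x / R) ^ n * Pht n (bs5 n e R) (R / x) (t / (x / R)) = x / R * Pht n (ga n e R) (x / R) t := by
        rw [h1, hpp]
        ring
      have h4 : (x / R) ^ n * (t / (x / R) * Pht n (bs5 n e R) (R / x) (t / (x / R))) = t * Pht n (ga n e R) (x / R) t := by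
        calc (x / R) ^ n * (t / (x / R) * Pht n (bs5 n e R) (R / x) (t / (x / R))) =
            t / (x / R) * ((x / R) ^ n * Pht n (bs5 n e R) (R / x) (t / (x / R))) := by ring
          _ = t / (x / R) * (x / R * Pht n (ga n e R) (x / R) t) := by rw [h3]
          _ = _ := by field_simp
      linear_combination h4 + h2 - J x * h3 - (x / R) * ht2) a b ha
  refine ⟨κ, hκ1, hκ2, insert 0 Z, ?_, ?_⟩
  · exact (Finset.card_insert_le _ _).trans (by omega)
  · intro x hx hor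
    by_cases hx0 : x = 0
    · rw [hx0]
      exact Finset.mem_insert_self _ _
    · exact Finset.mem_insert_of_mem (hZ x ⟨hx, hx0⟩ hor)

end Pool.Agent.H99.VY
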