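import Pool.Agent.H99.UC.Cel2
import Pool.Agent.H99.VY.Ga
import Pool.Agent.H99.VY.Brc

/-! # [H99 VY CELLZ] The integer points near one branch over one cell of the box: at most `C R^(5/6)` -/

namespace Pool.Agent.H99.VY

open Polynomial Pool.Agent.H8.AA Pool.Agent.H6.AB Pool.Agent.H99.UC

theorem cellz (n : ℕ) (hn : 4 ≤ n) (B c θ η C K₁ R : ℝ) (hB : 0 < B) (hc : 0 < c) (hθ : 0 < θ) (hθ1 : θ ≤ 1)
    (hη0 : 0 < η) (hηD : 4 * (cD n * B) * (2 * η) ≤ c * θ / 4) (hηc : 64 * η ≤ c)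
    (hC : C = 2 / c * (cD n * B * (1 + (2 / c * (cD n * B)) ^ 2))) (hK₁ : K₁ = 4 * C + 16 / c + 1)
    (hR : 1 ≤ R) (hRη : 1 ≤ 2 * η * R) (e : ℕ → ℕ → ℤ) (H : ℕ) (hH : 1 ≤ H) (hHR : (H : ℝ) ^ 2 ≤ R ^ n)
    (hb : ∀ a b, a + b ≤ n → |(e a b : ℝ)| ≤ B * R ^ (n - (a + b))) (hI : Ir n e) (u₀ r : ℝ) (hu₀ : |u₀| + 2 * η ≤ 1)
    (hr2 : |r| + θ ≤ 2) (hr : Ph n (ga n e R) u₀ r = 0) (hd : ∀ t, |t - r| ≤ θ → c ≤ |Pht n (ga n e R) u₀ t|)
    (T : Finset (ℤ × ℤ)) (hT : ∀ P ∈ T, |ev n e P.1 P.2| ≤ (H : ℤ) ∧ |(P.1 : ℝ) / R - u₀| ≤ η ∧ |(P.2 : ℝ) / R - r| ≤ θ) :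
    (T.card : ℝ) ≤ (4 * (K₁ + 1) + (4 * n ^ 2 + 2) * (4 * C + 8 / c + 1) * (3 * n)) * R ^ (5 / 6 : ℝ) := by
  have hR0 : 0 < R := by linarith
  have hD := cD_pos n
  have hC0 : 0 ≤ C := by
    rw [hC]
    positivity
  have h16 : 0 < 16 / c := by positivity
  have hK₁1 : 1 ≤ K₁ := by linarith
  have hK₁0 : 0 < K₁ := by linarith
  have hH1 : (1 : ℝ) ≤ H := by exact_mod_cast hH
  have hη1 : η ≤ 1 := by
    have := abs_nonneg u₀
    linarith
  have hbb := ga_le n e hR0 hB.le hb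
  -- the branch
  obtain ⟨Φ, J, hΦ, hΦ2, hJ, hnear, hcr⟩ := phi_box n hB hbb hc hθ hθ1 hr2 hr hd (by positivity : 0 ≤ 2 * η) hu₀ hηD R C hR0 hC
  -- the interval
  obtain ⟨lo, hlo⟩ : ∃ lo : ℝ, lo = R * (u₀ - η) := ⟨_, rfl⟩
  obtain ⟨hi, hhi⟩ : ∃ hi : ℝ, hi = R * (u₀ + η) := ⟨_, rfl⟩
  obtain ⟨X, hX⟩ : ∃ X : ℝ, X = 2 * η * R := ⟨_, rfl⟩
  rw [← hX] at hRη
  have hX0 : 0 < X := by linarith
  have hlX : hi - lo = X := by
    rw [hhi, hlo, hX]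
    ring
  have hlh : lo ≤ hi := by linarith
  have hmem : ∀ x : ℝ, (lo ≤ x ∧ x ≤ hi) ↔ |x / R - u₀| ≤ η := by
    intro x
    rw [abs_le, hlo, hhi]
    constructor
    · rintro ⟨h1, h2⟩
      constructor
      · have : u₀ - η ≤ x / R := by
          rw [le_div_iff₀ hR0]
          linarith
        linarith
      · have : x / R ≤ u₀ + η := by
          rw [div_le_iff₀ hR0]
          linarith
        linarith
    · rintro ⟨h1, h2⟩
      constructor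
      · have : u₀ - η ≤ x / R := by linarith
        rw [le_div_iff₀ hR0] at this
        linarith
      · have : x / R ≤ u₀ + η := by linarith
        rw [div_le_iff₀ hR0] at this
        linarith
  have hin : ∀ x ∈ Set.Icc lo hi, |x / R - u₀| ≤ 2 * η := fun x hx => ((hmem x).1 hx).trans (by linarith)
  have hins : ∀ x ∈ Set.Icc lo hi, |x / R - u₀| < 2 * η := fun x hx => lt_of_le_of_lt ((hmem x).1 hx) (by linarith)
  have hTI : ∀ P ∈ T, lo ≤ (P.1 : ℝ) ∧ (P.1 : ℝ) ≤ hi := fun P hP => (hmem _).2 (hT P hP).2.1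
  -- `H ≤ R^(n-2)`
  obtain ⟨m, hm⟩ : ∃ m, n = m + 2 := ⟨n - 2, by omega⟩
  have hHm : (H : ℝ) ≤ R ^ m := by
    have h1 : (H : ℝ) ^ 2 ≤ (R ^ m) ^ 2 := by
      rw [← pow_mul]
      exact hHR.trans (pow_le_pow_right₀ hR (by omega))
    exact le_of_sq_le_sq h1 (by positivity)
  -- distance from the branch
  obtain ⟨δ, hδ⟩ : ∃ δ : ℝ, δ = 2 / c / R := ⟨_, rfl⟩
  have hδ0 : 0 ≤ δ := by rw [hδ]; positivity
  have hδ1 : δ ≤ 1 / (16 * X) := by
    rw [hδ, hX, le_div_iff₀ (by positivity)]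
    have e1 : 2 / c / R * (16 * (2 * η * R)) = 64 * η / c := by
      field_simp
      norm_num
    rw [e1, div_le_one hc]
    exact hηc
  have hδ2 : δ ≤ 1 / 16 := by
    refine hδ1.trans ?_
    apply one_div_le_one_div_of_le (by norm_num)
    linarith
  have hdist : ∀ P ∈ T, |(P.2 : ℝ) - Φ P.1| ≤ δ := by
    intro P hP
    obtain ⟨p1, p2, p3⟩ := hT P hP
    have h1 := hnear P.1 P.2 (p2.trans (by linarith)) p3
    have h2 := ev_ga n e hR0.ne' P.1 P.2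
    have h3 : |(ev n e P.1 P.2 : ℝ)| ≤ H := by exact_mod_cast p1
    rw [h2, abs_mul, abs_of_pos (pow_pos hR0 n)] at h3
    have h4 : R * |Ph n (ga n e R) (P.1 / R) (P.2 / R)| ≤ 1 / R := by
      rw [le_div_iff₀ hR0]
      have h5 : R ^ m * (R * |Ph n (ga n e R) (P.1 / R) (P.2 / R)| * R) ≤ R ^ m * 1 := by
        calc R ^ m * (R * |Ph n (ga n e R) (P.1 / R) (P.2 / R)| * R) =
            R ^ n * |Ph n (ga n e R) (P.1 / R) (P.2 / R)| := by
              rw [hm]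
              ring
          _ ≤ H := h3
          _ ≤ R ^ m * 1 := by rw [mul_one]; exact hHm
      exact le_of_mul_le_mul_left h5 (by positivity)
    have h7 : c / 2 * |(P.2 : ℝ) - Φ P.1| ≤ 1 / R := h1.trans h4
    rw [hδ]
    calc |(P.2 : ℝ) - Φ P.1| = 2 / c * (c / 2 * |(P.2 : ℝ) - Φ P.1|) := by field_simp
      _ ≤ 2 / c * (1 / R) := mul_le_mul_of_nonneg_left h7 (by positivity)
      _ = 2 / c / R := by ring
  have hinj : ∀ P ∈ T, ∀ Q ∈ T, P.1 = Q.1 → P = Q := by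
    intro P hP Q hQ h
    have h1 := hdist P hP
    have h2 := hdist Q hQ
    rw [← h] at h2
    have h3 : |(P.2 : ℝ) - Q.2| < 1 := by
      have e1 : (P.2 : ℝ) - Q.2 = ((P.2 : ℝ) - Φ P.1) - ((Q.2 : ℝ) - Φ P.1) := by ring
      rw [e1]
      refine lt_of_le_of_lt (abs_sub _ _) ?_
      linarith
    have h4 : |P.2 - Q.2| < 1 := by exact_mod_cast h3
    have h5 : P.2 = Q.2 := by
      have := Int.abs_lt_one_iff.1 h4
      linarith
    exact Prod.ext h h5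
  -- the sixth root of `R`
  obtain ⟨z, hz⟩ : ∃ z : ℝ, z = R ^ (1 / 6 : ℝ) := ⟨_, rfl⟩
  have hz1 : 1 ≤ z := by
    rw [hz]
    exact Real.one_le_rpow hR (by norm_num)
  have hz0 : 0 < z := by linarith
  have hz6 : z ^ 6 = R := by
    rw [hz, ← Real.rpow_natCast (R ^ (1 / 6 : ℝ)) 6, ← Real.rpow_mul hR0.le]
    norm_num
  have hz5 : R ^ (5 / 6 : ℝ) = z ^ 5 := by
    rw [hz, ← Real.rpow_natCast (R ^ (1 / 6 : ℝ)) 5, ← Real.rpow_mul hR0.le]
    norm_num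
  obtain ⟨L, hL⟩ : ∃ L : ℝ, L = z ^ 2 / K₁ := ⟨_, rfl⟩
  have hL0 : 0 < L := by rw [hL]; positivity
  have hsmall : 2 * L * (C / R * L ^ 2 + 2 * δ) < 1 := by
    have h1 : 2 * L * (C / R * L ^ 2) ≤ 2 * C / K₁ := by
      have e1 : 2 * L * (C / R * L ^ 2) = 2 * C / K₁ ^ 3 := by
        rw [hL, ← hz6]
        field_simp
      rw [e1]
      apply div_le_div_of_nonneg_left (by positivity) hK₁0
      calc K₁ = K₁ ^ 1 := (pow_one K₁).symm
        _ ≤ K₁ ^ 3 := pow_le_pow_right₀ hK₁1 (by norm_num)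
    have h2 : 2 * L * (2 * δ) ≤ 8 / c / K₁ := by
      have e1 : 2 * L * (2 * δ) = 8 / c / K₁ / z ^ 4 := by
        rw [hL, hδ, ← hz6]
        field_simp
        norm_num
      rw [e1]
      exact div_le_self (by positivity) (one_le_pow₀ hz1)
    have h3 : 2 * C / K₁ + 8 / c / K₁ < 1 := by
      rw [← add_div, div_lt_one hK₁0, hK₁]
      have : 8 / c = 16 / c / 2 := by
        field_simp
        norm_num
      rw [this]
      linarith
    calc 2 * L * (C / R * L ^ 2 + 2 * δ) = 2 * L * (C / R * L ^ 2) + 2 * L * (2 * δ) := by ring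
      _ ≤ 2 * C / K₁ + 8 / c / K₁ := add_le_add h1 h2
      _ < 1 := h3
  -- collinear
  have hcol : ∀ P ∈ T, ∀ Q ∈ T, ∀ Q' ∈ T, |(P.1 : ℝ) - Q.1| ≤ L → |(P.1 : ℝ) - Q'.1| ≤ L → |(Q.1 : ℝ) - Q'.1| ≤ L →
      (Q.1 - P.1) * (Q'.2 - P.2) = (Q'.1 - P.1) * (Q.2 - P.2) := by
    intro P hP Q hQ Q' hQ' hPQ hPQ' _
    have hE : ∀ A ∈ T, |(P.1 : ℝ) - A.1| ≤ L → |(A.2 : ℝ) - P.2 - J P.1 * (A.1 - P.1)| ≤ C / R * L ^ 2 + 2 * δ := by
      intro A hA hPA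
      have k1 := hΦ2 P.1 A.1 (hin _ (hTI P hP)) (hin _ (hTI A hA))
      have k2 := hdist A hA
      have k3 := hdist P hP
      have k4 : C / R * ((A.1 : ℝ) - P.1) ^ 2 ≤ C / R * L ^ 2 := by
        apply mul_le_mul_of_nonneg_left _ (by positivity)
        rw [← sq_abs ((A.1 : ℝ) - P.1)]
        apply pow_le_pow_left₀ (abs_nonneg _)
        rw [abs_sub_comm]
        exact hPA
      have e1 : (A.2 : ℝ) - P.2 - J P.1 * (A.1 - P.1) = (Φ A.1 - Φ P.1 - J P.1 * (A.1 - P.1)) + ((A.2 : ℝ) - Φ A.1) -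
          ((P.2 : ℝ) - Φ P.1) := by ring
      rw [e1]
      calc _ ≤ |(Φ A.1 - Φ P.1 - J P.1 * (A.1 - P.1)) + ((A.2 : ℝ) - Φ A.1)| + |(P.2 : ℝ) - Φ P.1| := abs_sub _ _
        _ ≤ |Φ A.1 - Φ P.1 - J P.1 * (A.1 - P.1)| + |(A.2 : ℝ) - Φ A.1| + |(P.2 : ℝ) - Φ P.1| := by
            gcongr
            exact abs_add_le _ _
        _ ≤ C / R * L ^ 2 + 2 * δ := by linarith
    have k1 := hE Q hQ hPQ
    have k2 := hE Q' hQ' hPQ'
    have hW0 : 0 ≤ C / R * L ^ 2 + 2 * δ := by positivity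
    have hlt : |(((Q.1 - P.1) * (Q'.2 - P.2) - (Q'.1 - P.1) * (Q.2 - P.2) : ℤ) : ℝ)| < 1 := by
      push_cast
      have e1 : ((Q.1 : ℝ) - P.1) * (Q'.2 - P.2) - (Q'.1 - P.1) * (Q.2 - P.2) =
          ((Q.1 : ℝ) - P.1) * ((Q'.2 : ℝ) - P.2 - J P.1 * (Q'.1 - P.1)) -
          ((Q'.1 : ℝ) - P.1) * ((Q.2 : ℝ) - P.2 - J P.1 * (Q.1 - P.1)) := by ring
      rw [e1]
      refine lt_of_le_of_lt (abs_sub _ _) ?_
      rw [abs_mul, abs_mul, abs_sub_comm (Q.1 : ℝ), abs_sub_comm (Q'.1 : ℝ)]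
      calc |(P.1 : ℝ) - Q.1| * |(Q'.2 : ℝ) - P.2 - J P.1 * (Q'.1 - P.1)| +
          |(P.1 : ℝ) - Q'.1| * |(Q.2 : ℝ) - P.2 - J P.1 * (Q.1 - P.1)| ≤
          L * (C / R * L ^ 2 + 2 * δ) + L * (C / R * L ^ 2 + 2 * δ) := by
            gcongr
        _ = 2 * L * (C / R * L ^ 2 + 2 * δ) := by ring
        _ < 1 := hsmall
    have h8 : |(Q.1 - P.1) * (Q'.2 - P.2) - (Q'.1 - P.1) * (Q.2 - P.2)| < 1 := by exact_mod_cast hlt
    have h9 := Int.abs_lt_one_iff.1 h8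
    linarith
  -- lines
  have hHz : (H : ℝ) ^ (1 / (n : ℝ)) ≤ z ^ 3 := by
    have hn0 : (0 : ℝ) < n := by
      have : 0 < n := by omega
      exact_mod_cast this
    have h1 : (H : ℝ) ≤ (z ^ 3) ^ n := by
      have h2 : (H : ℝ) ^ 2 ≤ ((z ^ 3) ^ n) ^ 2 := by
        refine hHR.trans (le_of_eq ?_)
        rw [← hz6, ← pow_mul, ← pow_mul, ← pow_mul]
        congr 1
        ring
      exact le_of_sq_le_sq h2 (by positivity)
    calc (H : ℝ) ^ (1 / (n : ℝ)) ≤ ((z ^ 3) ^ n) ^ (1 / (n : ℝ)) :=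
          Real.rpow_le_rpow (by linarith) h1 (by positivity)
      _ = z ^ 3 := by
          rw [← Real.rpow_natCast (z ^ 3) n, ← Real.rpow_mul (by positivity), mul_one_div_cancel hn0.ne', Real.rpow_one]
  have hline : ∀ (a b l : ℤ), 0 < a → ((T.filter fun P => a * P.2 - b * P.1 = l).card : ℝ) ≤ 3 * n * z ^ 3 := by
    intro a b l ha
    have h1 := cls n (by omega) e hI H hH1 (T.filter fun P => a * P.2 - b * P.1 = l)
      (fun P hP Q hQ R hR => on_line ha.ne' (Finset.mem_filter.1 hP).2 (Finset.mem_filter.1 hQ).2 (Finset.mem_filter.1 hR).2)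
      (fun P hP => by exact_mod_cast (hT P (Finset.mem_filter.1 hP).1).1)
    refine h1.trans ?_
    have h2 : (1 : ℝ) ≤ z ^ 3 := one_le_pow₀ hz1
    have h3 : (0 : ℝ) ≤ n := Nat.cast_nonneg _
    have h4 : 2 * (H : ℝ) ^ (1 / (n : ℝ)) + 1 ≤ 3 * z ^ 3 := by linarith
    calc (n : ℝ) * (2 * (H : ℝ) ^ (1 / (n : ℝ)) + 1) ≤ n * (3 * z ^ 3) := mul_le_mul_of_nonneg_left h4 h3
      _ = _ := by ring
  -- the number `m₀`
  obtain ⟨m₀, hm₀⟩ : ∃ m₀ : ℕ, m₀ = ⌈z⌉₊ := ⟨_, rfl⟩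
  have hm1 : z ≤ m₀ := by rw [hm₀]; exact Nat.le_ceil _
  have hm2 : (m₀ : ℝ) ≤ 2 * z := by
    have := (Nat.ceil_lt_add_one hz0.le).le
    rw [← hm₀] at this
    linarith
  have hm3 : 1 ≤ m₀ := by
    have : (1 : ℝ) ≤ m₀ := hz1.trans hm1
    exact_mod_cast this
  have hmr : (0 : ℝ) < m₀ := by exact_mod_cast hm3
  -- the numbers of the key lemma
  obtain ⟨N, hN⟩ : ∃ N : ℝ, N = (((4 * n ^ 2 + 1 : ℕ) : ℝ) + 1) * ((4 * C + 4 * δ) * (L / m₀) ^ 2 + 1) := ⟨_, rfl⟩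
  have hwin := windows T lo hi L hL0 m₀ hm3 (3 * n * z ^ 3) N (by positivity) hTI
    hinj hlh hcol hline (by
      intro Ks p q h1 h2
      rw [hN]
      refine keys lo hi X L δ (4 * C) m₀ (4 * n ^ 2 + 1) hm3 Φ J hRη hL0 hlX.le hδ0 hδ1 (by positivity)
        (fun x hx => hΦ x (hins x hx)) ?_ ?_ T
        (fun P hP => ⟨(hTI P hP).1, (hTI P hP).2, hdist P hP⟩) Ks p q h1 h2
      · intro x hx y hy
        refine (hJ x y (hin x hx) (hin y hy)).trans ?_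
        have h3 : |x - y| ≤ X := by
          rw [abs_le]
          constructor <;> linarith [hx.1, hx.2, hy.1, hy.2]
        calc 2 * C / R * |x - y| ≤ 2 * C / R * X := mul_le_mul_of_nonneg_left h3 (by positivity)
          _ = 4 * C * η := by
              rw [hX]
              field_simp
              ring
          _ ≤ 4 * C * 1 := mul_le_mul_of_nonneg_left hη1 (by positivity)
          _ = 4 * C := mul_one _
      · intro a b ha
        exact critz n (by omega) e hI R X hR0 hX0 J (Set.Icc lo hi) (fun x hx => hcr x (hin x hx)) a b ha)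
  -- the end
  have hz4 : (1 : ℝ) ≤ z ^ 4 := one_le_pow₀ hz1
  have hpoor : ((hi - lo) / L + 2) * m₀ ≤ 4 * (K₁ + 1) * z ^ 5 := by
    have h1 : (hi - lo) / L ≤ 2 * K₁ * z ^ 4 := by
      rw [hlX, hX, hL]
      have e1 : 2 * η * R / (z ^ 2 / K₁) = η * (2 * K₁ * z ^ 4) := by
        rw [← hz6]
        field_simp
      rw [e1]
      have : 0 ≤ 2 * K₁ * z ^ 4 := by positivity
      nlinarith
    have h3 : (hi - lo) / L + 2 ≤ 2 * (K₁ + 1) * z ^ 4 := by linarith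
    calc ((hi - lo) / L + 2) * m₀ ≤ (2 * (K₁ + 1) * z ^ 4) * (2 * z) := mul_le_mul h3 hm2 hmr.le (by positivity)
      _ = _ := by ring
  have hrich : N * (3 * n * z ^ 3) ≤ (4 * n ^ 2 + 2) * (4 * C + 8 / c + 1) * (3 * n) * z ^ 5 := by
    have h1 : L / m₀ ≤ z := by
      rw [div_le_iff₀ hmr, hL]
      calc z ^ 2 / K₁ ≤ z ^ 2 := div_le_self (by positivity) hK₁1
        _ = z * z := by ring
        _ ≤ z * m₀ := mul_le_mul_of_nonneg_left hm1 hz0.le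
    have h2 : (L / m₀) ^ 2 ≤ z ^ 2 := pow_le_pow_left₀ (by positivity) h1 2
    have h3 : 4 * C + 4 * δ ≤ 4 * C + 8 / c := by
      have h4 : 4 * δ = 8 / c / R := by
        rw [hδ]
        ring
      have h5 : 8 / c / R ≤ 8 / c := div_le_self (by positivity) hR
      linarith
    have h4 : (4 * C + 4 * δ) * (L / m₀) ^ 2 ≤ (4 * C + 8 / c) * z ^ 2 :=
      mul_le_mul h3 h2 (by positivity) (by positivity)
    have h5 : (1 : ℝ) ≤ z ^ 2 := one_le_pow₀ hz1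
    have h6 : N ≤ (4 * n ^ 2 + 2) * ((4 * C + 8 / c + 1) * z ^ 2) := by
      rw [hN]
      push_cast
      have e1 : (4 * (n : ℝ) ^ 2 + 1 + 1) = 4 * (n : ℝ) ^ 2 + 2 := by ring
      rw [e1]
      refine mul_le_mul_of_nonneg_left ?_ (by positivity)
      linarith
    calc N * (3 * n * z ^ 3) ≤ ((4 * n ^ 2 + 2) * ((4 * C + 8 / c + 1) * z ^ 2)) * (3 * n * z ^ 3) :=
          mul_le_mul_of_nonneg_right h6 (by positivity)
      _ = _ := by ring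
  rw [hz5]
  calc (T.card : ℝ) ≤ ((hi - lo) / L + 2) * m₀ + N * (3 * n * z ^ 3) := hwin
    _ ≤ 4 * (K₁ + 1) * z ^ 5 + (4 * n ^ 2 + 2) * (4 * C + 8 / c + 1) * (3 * n) * z ^ 5 := add_le_add hpoor hrich
    _ = _ := by ring

end Pool.Agent.H99.VY
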