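import Pool.Agent.H99.UC.Rsl
import Pool.Agent.H99.VX.Pb
import Pool.Agent.H99.VX.Sclx
import Pool.Agent.H99.VY.Cellz

/-! # [H99 VY COVERZ] The integer points of the box where `Φ_t` is not small: at most `B^k v^35`, `R = v^36` -/

namespace Pool.Agent.H99.VY

open Polynomial Pool.Agent.H8.AA Pool.Agent.H6.AB Pool.Agent.H99.UC Pool.Agent.H99.VX

/-- `Φ_t` is Lipschitz in `t` -/
theorem Pht_lipt (n : ℕ) {b : ℕ → ℕ → ℝ} {B : ℝ} (hB : 0 ≤ B) (hb : ∀ k ≤ n, ∀ j ≤ n, |b k j| ≤ B) {u s t : ℝ}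
    (hu : |u| ≤ 1) (hs : |s| ≤ 2) (ht : |t| ≤ 2) : |Pht n b u s - Pht n b u t| ≤ 2 * (cD n * B) * |s - t| := by
  rcases eq_or_ne s t with rfl | hne
  · simp
  have h1 := Ph_tay2 n hB hb hu hu hs ht
  have h2 := Ph_tay2 n hB hb hu hu ht hs
  have hpos : 0 < |s - t| := abs_pos.2 (sub_ne_zero.2 hne)
  have h3 : |Pht n b u s - Pht n b u t| * |s - t| ≤ 2 * (cD n * B) * |s - t| * |s - t| := by
    rw [← abs_mul, mul_assoc (2 * (cD n * B)), abs_mul_abs_self]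
    have e1 : (Pht n b u s - Pht n b u t) * (s - t) =
        (Ph n b u t - Ph n b u s - (Phu n b u s * (u - u) + Pht n b u s * (t - s))) +
        (Ph n b u s - Ph n b u t - (Phu n b u t * (u - u) + Pht n b u t * (s - t))) := by ring
    rw [e1]
    refine (abs_add_le _ _).trans ?_
    have e2 : 2 * (cD n * B) * ((s - t) * (s - t)) = cD n * B * ((u - u) ^ 2 + (t - s) ^ 2) +
        cD n * B * ((u - u) ^ 2 + (s - t) ^ 2) := by ring
    rw [e2]
    exact add_le_add h1 h2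
  exact le_of_mul_le_mul_right h3 hpos

/-- the real roots of `Φ(u,·)` -/
theorem roots_box (n : ℕ) (e : ℕ → ℕ → ℤ) (h : e 0 n ≠ 0) (R : ℝ) (u : ℝ) : ∃ Z : Finset ℝ, Z.card ≤ n ∧
    ∀ t : ℝ, Ph n (ga n e R) u t = 0 ↔ t ∈ Z := by
  classical
  obtain ⟨p, hp⟩ : ∃ p : ℝ[X], p = (P2 n (ga n e R)).map (evalRingHom u) := ⟨_, rfl⟩
  have hp0 : p ≠ 0 := by
    intro h0
    have h1 : p.coeff n = (e 0 n : ℝ) := by
      rw [hp, coeff_map, P2_coeff, if_pos le_rfl, map_sum, Finset.sum_eq_single 0]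
      · unfold ga
        rw [if_pos (by omega)]
        simp
      · intro k _ hk
        have hkn : ¬ k + n ≤ n := by omega
        unfold ga
        rw [if_neg hkn]
        simp
      · intro h
        exact absurd (Finset.mem_range.2 (by omega)) h
    rw [h0, coeff_zero] at h1
    exact h (by exact_mod_cast h1.symm)
  refine ⟨p.roots.toFinset, (Multiset.toFinset_card_le _).trans ((card_roots' _).trans ?_), ?_⟩
  · rw [hp]
    exact natDegree_map_le.trans (P2_deg n _)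
  · intro t
    rw [Multiset.mem_toFinset, mem_roots hp0, IsRoot.def, hp, P2_eval]
    rfl

/-- `coverz` with explicit exponents -/
theorem coverze (n : ℕ) (hn : 4 ≤ n) : ∀ B : ℕ, 2 ≤ B → ∀ e : ℕ → ℕ → ℤ, Ir n e → ∀ R v : ℝ,
    (B : ℝ) ^ (24 * n ^ 2) ≤ v → R = v ^ 36 → (∀ a b, a + b ≤ n → |(e a b : ℝ)| ≤ (B : ℝ) * R ^ (n - (a + b))) →
    ∀ H : ℕ, 1 ≤ H → (H : ℝ) ^ 2 ≤ R ^ n → ∀ T : Finset (ℤ × ℤ),
    (∀ P ∈ T, |ev n e P.1 P.2| ≤ (H : ℤ) ∧ |(P.1 : ℝ)| ≤ R / 2 ∧ |(P.2 : ℝ)| ≤ R / 2 ∧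
      1 / ((B : ℝ) ^ (10 * n ^ 2) * v) ≤ max |Ph n (ga n e R) (P.1 / R) (P.2 / R)| |Pht n (ga n e R) (P.1 / R) (P.2 / R)|) →
    (T.card : ℝ) ≤ (B : ℝ) ^ (64 * n ^ 2) * v ^ 35 := by
  classical
  have hcD := cD_pos n
  have hcD1 : 1 ≤ cD n := by
    unfold cD
    have h2 : (1 : ℝ) ≤ 2 ^ n := one_le_pow₀ (by norm_num)
    have hn0 : (0 : ℝ) ≤ n := Nat.cast_nonneg n
    have h3 : (1 : ℝ) ≤ ((n : ℝ) + 1) ^ 2 := by nlinarith
    have h4 : (1 : ℝ) ≤ 4 * (n : ℝ) ^ 2 + n + 1 := by nlinarith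
    have h5 : (1 : ℝ) ≤ ((n : ℝ) + 1) ^ 2 * 2 ^ n := by nlinarith
    nlinarith
  -- the constants
  have hcDe := cD_le n
  obtain ⟨g, hge⟩ : ∃ g : ℕ, g = 10 * n ^ 2 := ⟨_, rfl⟩
  obtain ⟨k, hke⟩ : ∃ k : ℕ, k = 64 * n ^ 2 := ⟨_, rfl⟩
  obtain ⟨Kv, hKve⟩ : ∃ Kv : ℕ, Kv = 24 * n ^ 2 := ⟨_, rfl⟩
  have hkk : 5 * g + 29 * n + 45 ≤ k := by
    rw [hke, hge]
    nlinarith
  have hKK : 2 * g + 10 * n + 17 ≤ Kv := by
    rw [hKve, hge]
    nlinarith
  rw [← hge, ← hke, ← hKve]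
  have pq : PE g fun B => (B : ℝ) ^ g := pe_pow g
  have pD : PE (5 * n + 3) fun B => cD n * (B : ℝ) := pe_mul (pe_const hcD.le hcDe) pe_id (by omega)
  have pC : PE (3 * g + 15 * n + 16) fun B => 4 * (B : ℝ) ^ g * (cD n * (B : ℝ) * (1 + (4 * (B : ℝ) ^ g * (cD n * (B : ℝ))) ^ 2)) :=
    pe_mul (pe_mul (m := g + 2) (pe_const (k := 2) (by norm_num) (by norm_num)) pq (by omega))
      (pe_mul (m := 2 * g + 15 * n + 14) pD (pe_add (m := 2 * g + 10 * n + 11) (pe_const (k := 0) (by norm_num) (by norm_num))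
        (pe_npow (m := 2 * g + 10 * n + 10) (pe_mul (m := g + 5 * n + 5)
          (pe_mul (m := g + 2) (pe_const (k := 2) (by norm_num) (by norm_num)) pq (by omega)) pD (by omega)) 2 (by omega))
        (by omega) (by omega)) (by omega)) (by omega)
  have pDq : PE (2 * g + 10 * n + 6) fun B => (cD n * (B : ℝ) * (B : ℝ) ^ g) ^ 2 :=
    pe_npow (pe_mul (m := g + 5 * n + 3) pD pq (by omega)) 2 (by omega)
  have hk : PE k fun B => 8192 * (cD n * (B : ℝ) * (B : ℝ) ^ g) ^ 2 * ((n : ℝ) *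
      (4 * (4 * (4 * (B : ℝ) ^ g * (cD n * (B : ℝ) * (1 + (4 * (B : ℝ) ^ g * (cD n * (B : ℝ))) ^ 2))) + 32 * (B : ℝ) ^ g + 2) +
      (4 * (n : ℝ) ^ 2 + 2) * (4 * (4 * (B : ℝ) ^ g * (cD n * (B : ℝ) * (1 + (4 * (B : ℝ) ^ g * (cD n * (B : ℝ))) ^ 2))) +
        16 * (B : ℝ) ^ g + 1) * (3 * n))) :=
    pe_mul (pe_mul (m := 2 * g + 10 * n + 19) (pe_const (k := 13) (by norm_num) (by norm_num)) pDq (by omega))
      (pe_mul (m := 3 * g + 19 * n + 26) (pe_const (k := n) (Nat.cast_nonneg n) (n_le n))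
        (pe_add (m := 3 * g + 18 * n + 26)
          (pe_mul (m := 3 * g + 15 * n + 22) (pe_const (k := 2) (by norm_num) (by norm_num))
            (pe_add (m := 3 * g + 15 * n + 20) (pe_add (m := 3 * g + 15 * n + 19)
              (pe_mul (m := 3 * g + 15 * n + 18) (pe_const (k := 2) (by norm_num) (by norm_num)) pC (by omega))
              (pe_mul (m := g + 5) (pe_const (k := 5) (by norm_num) (by norm_num)) pq (by omega)) (by omega) (by omega))
              (pe_const (k := 1) (by norm_num) (by norm_num)) (by omega) (by omega)) (by omega))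
          (pe_mul (m := 3 * g + 18 * n + 25) (pe_mul (m := 3 * g + 17 * n + 23) (pe_const (by positivity) (c4_le n))
            (pe_add (m := 3 * g + 15 * n + 20) (pe_add (m := 3 * g + 15 * n + 19)
              (pe_mul (m := 3 * g + 15 * n + 18) (pe_const (k := 2) (by norm_num) (by norm_num)) pC (by omega))
              (pe_mul (m := g + 4) (pe_const (k := 4) (by norm_num) (by norm_num)) pq (by omega)) (by omega) (by omega))
              (pe_const (k := 0) (by norm_num) (by norm_num)) (by omega) (by omega)) (by omega))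
            (pe_const (by positivity) (c3_le n)) (by omega)) (by omega) (by omega)) (by omega)) (by omega)
  have hKv : PE Kv fun B => 1024 * (cD n * (B : ℝ) * (B : ℝ) ^ g) ^ 2 + 1 :=
    pe_add (pe_mul (m := 2 * g + 10 * n + 16) (pe_const (k := 10) (by norm_num) (by norm_num)) pDq (by omega))
      (pe_const (k := 0) (by norm_num) (by norm_num)) (by omega) (by omega)
  intro B hB e hI R v hv hRv hb H hH hHR T hT
  have hB2 : (2 : ℝ) ≤ B := by exact_mod_cast hB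
  have hB1 : (1 : ℝ) ≤ B := by linarith
  have hBp : (0 : ℝ) < B := by linarith
  have hkB := (hk B hB).2
  have hKvB := (hKv B hB).2.trans hv
  simp only at hkB hKvB
  have hC0 := (pC B hB).1
  simp only at hC0
  obtain ⟨q, hq⟩ : ∃ q : ℝ, q = (B : ℝ) ^ g := ⟨_, rfl⟩
  obtain ⟨D, hD⟩ : ∃ D : ℝ, D = cD n * B := ⟨_, rfl⟩
  rw [← hq, ← hD] at hkB hKvB hC0
  obtain ⟨C₁, hC₁⟩ : ∃ C₁ : ℝ, C₁ = 4 * q * (D * (1 + (4 * q * D) ^ 2)) := ⟨_, rfl⟩
  rw [← hC₁] at hkB hC0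
  have hq1 : 1 ≤ q := by
    rw [hq]
    exact one_le_pow₀ hB1
  have hD1 : 1 ≤ D := by
    rw [hD]
    nlinarith
  have hq0 : 0 < q := by linarith
  have hD0 : 0 < D := by linarith
  have hDq : 1 ≤ D * q := by nlinarith
  have hv1 : 1 ≤ v := by nlinarith [sq_nonneg (D * q)]
  have hv0 : 0 < v := by linarith
  have hR1 : 1 ≤ R := by
    rw [hRv]
    exact one_le_pow₀ hv1
  have hR0 : 0 < R := by linarith
  obtain ⟨Q, hQ⟩ : ∃ Q : ℝ, Q = q * v := ⟨_, rfl⟩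
  have hQ1 : 1 ≤ Q := by
    rw [hQ]
    nlinarith
  have hQ0 : 0 < Q := by linarith
  obtain ⟨c, hc⟩ : ∃ c : ℝ, c = 1 / (2 * Q) := ⟨_, rfl⟩
  obtain ⟨θ, hθ⟩ : ∃ θ : ℝ, θ = 1 / (16 * D * Q) := ⟨_, rfl⟩
  obtain ⟨η, hη⟩ : ∃ η : ℝ, η = 1 / (2048 * D ^ 2 * Q ^ 2) := ⟨_, rfl⟩
  have hc0 : 0 < c := by
    rw [hc]
    positivity
  have hθ0 : 0 < θ := by
    rw [hθ]
    positivity
  have hη0 : 0 < η := by
    rw [hη]
    positivity
  have hθ16 : θ ≤ 1 / 16 := by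
    rw [hθ]
    apply one_div_le_one_div_of_le (by norm_num)
    nlinarith
  have hη16 : η ≤ 1 / 16 := by
    rw [hη]
    apply one_div_le_one_div_of_le (by norm_num)
    have h1 : 1 ≤ D ^ 2 := one_le_pow₀ hD1
    have h2 : 1 ≤ Q ^ 2 := one_le_pow₀ hQ1
    nlinarith
  have hDθ : D * θ = 1 / (16 * Q) := by
    rw [hθ]
    field_simp
  have hDη : 32 * (D * η) = c * θ / 2 := by
    rw [hη, hc, hθ]
    field_simp
    norm_num
  have hηD : 4 * (cD n * B) * (2 * η) ≤ c * θ / 4 := by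
    rw [← hD]
    have h1 : 0 < c * θ := by positivity
    linarith
  have hcη : 64 * η ≤ c := by
    have h1 : 64 * (D * η) = c * θ := by linarith
    have h2 : 64 * η ≤ 64 * (D * η) := by nlinarith
    have h3 : c * θ ≤ c := by nlinarith
    linarith
  have hcθ : c * θ = 1 / (32 * D * Q ^ 2) := by
    rw [hc, hθ]
    field_simp
    norm_num
  -- `R` is large
  have hbig : 1024 * (D * Q) ^ 2 ≤ R := by
    have h1 : 1024 * (D * q) ^ 2 ≤ v := by linarith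
    have h2 : 1024 * (D * Q) ^ 2 = 1024 * (D * q) ^ 2 * v ^ 2 := by
      rw [hQ]
      ring
    rw [h2, hRv]
    calc 1024 * (D * q) ^ 2 * v ^ 2 ≤ v * v ^ 2 := mul_le_mul_of_nonneg_right h1 (by positivity)
      _ = v ^ 3 := by ring
      _ ≤ v ^ 36 := pow_le_pow_right₀ hv1 (by norm_num)
  have hRη : 1 ≤ 2 * η * R := by
    have h1 : 2 * η * (1024 * (D * Q) ^ 2) = 1 := by
      rw [hη]
      field_simp
      norm_num
    calc (1 : ℝ) = 2 * η * (1024 * (D * Q) ^ 2) := h1.symm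
      _ ≤ 2 * η * R := mul_le_mul_of_nonneg_left hbig (by positivity)
  have hRsm : 1 / R ^ 2 < c * θ / 2 := by
    have h1 : 1 / R ≤ 1 / (1024 * (D * Q) ^ 2) := one_div_le_one_div_of_le (by positivity) hbig
    have h2 : 1 / R ^ 2 ≤ 1 / R := by
      apply one_div_le_one_div_of_le hR0
      nlinarith
    have h3 : 1 / (1024 * (D * Q) ^ 2) < c * θ / 2 := by
      rw [hcθ, div_div]
      apply one_div_lt_one_div_of_lt (by positivity)
      have h4 : 0 < D * Q ^ 2 := by positivity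
      have h5 : (D * Q) ^ 2 = D * (D * Q ^ 2) := by ring
      rw [h5]
      nlinarith
    linarith
  have hcθQ : c * θ / 2 ≤ 1 / Q := by
    have h1 : c * θ ≤ c := by nlinarith
    have h2 : c ≤ 1 / Q := by
      rw [hc]
      apply one_div_le_one_div_of_le hQ0
      linarith
    have h3 : 0 < c := hc0
    linarith
  have hbb := ga_le n e hR0 hBp.le hb
  -- `H ≤ R^(n-2)`
  obtain ⟨m, hm⟩ : ∃ m, n = m + 2 := ⟨n - 2, by omega⟩
  have hHm : (H : ℝ) ≤ R ^ m := by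
    have h1 : (H : ℝ) ^ 2 ≤ (R ^ m) ^ 2 := by
      rw [← pow_mul]
      exact hHR.trans (pow_le_pow_right₀ hR1 (by omega))
    exact le_of_sq_le_sq h1 (by positivity)
  -- facts on a point
  have hpt : ∀ P ∈ T, |(P.1 : ℝ) / R| ≤ 1 / 2 ∧ |(P.2 : ℝ) / R| ≤ 1 / 2 ∧
      |Ph n (ga n e R) (P.1 / R) (P.2 / R)| < c * θ / 2 ∧ 1 / Q ≤ |Pht n (ga n e R) (P.1 / R) (P.2 / R)| := by
    intro P hP
    obtain ⟨p1, p2, p3, p4⟩ := hT P hP
    have hu : |(P.1 : ℝ) / R| ≤ 1 / 2 := by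
      rw [abs_div, abs_of_pos hR0, div_le_iff₀ hR0]
      linarith
    have ht : |(P.2 : ℝ) / R| ≤ 1 / 2 := by
      rw [abs_div, abs_of_pos hR0, div_le_iff₀ hR0]
      linarith
    have h1 : |Ph n (ga n e R) (P.1 / R) (P.2 / R)| < c * θ / 2 := by
      refine lt_of_le_of_lt ?_ hRsm
      have h2 := ev_ga n e hR0.ne' P.1 P.2
      have h3 : |(ev n e P.1 P.2 : ℝ)| ≤ H := by exact_mod_cast p1
      rw [h2, abs_mul, abs_of_pos (pow_pos hR0 n)] at h3
      rw [le_div_iff₀ (by positivity)]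
      have h5 : R ^ m * (|Ph n (ga n e R) (P.1 / R) (P.2 / R)| * R ^ 2) ≤ R ^ m * 1 := by
        calc R ^ m * (|Ph n (ga n e R) (P.1 / R) (P.2 / R)| * R ^ 2) =
            R ^ n * |Ph n (ga n e R) (P.1 / R) (P.2 / R)| := by
              rw [hm]
              ring
          _ ≤ H := h3
          _ ≤ R ^ m * 1 := by rw [mul_one]; exact hHm
      exact le_of_mul_le_mul_left h5 (by positivity)
    refine ⟨hu, ht, h1, ?_⟩
    rw [← hq, ← hQ] at p4
    rcases le_max_iff.1 p4 with h | h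
    · linarith
    · exact h
  -- the centre of the cell
  have hcen : ∀ P ∈ T, |(P.1 : ℝ) / R - ⌊(P.1 : ℝ) / R / η⌋ * η| ≤ η := by
    intro P _
    have h1 := Int.floor_le ((P.1 : ℝ) / R / η)
    have h2 := (Int.lt_floor_add_one ((P.1 : ℝ) / R / η)).le
    have h3 := mul_le_mul_of_nonneg_right h1 hη0.le
    have h4 := mul_le_mul_of_nonneg_right h2 hη0.le
    rw [div_mul_cancel₀ _ hη0.ne'] at h3 h4
    rw [abs_le]
    constructor <;> linarith
  -- near a point the derivative is large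
  have hder : ∀ P ∈ T, ∀ u₀ : ℝ, |(P.1 : ℝ) / R - u₀| ≤ η → ∀ t, |t - (P.2 : ℝ) / R| ≤ 2 * θ → c ≤ |Pht n (ga n e R) u₀ t| := by
    intro P hP u₀ hu₀ t ht
    obtain ⟨h1, h2, _, h4⟩ := hpt P hP
    have hu1 : |u₀| ≤ 1 := by
      have := abs_sub ((P.1 : ℝ) / R) ((P.1 : ℝ) / R - u₀)
      rw [sub_sub_cancel] at this
      linarith
    have ht2 : |t| ≤ 2 := by
      have := abs_add_le (t - (P.2 : ℝ) / R) ((P.2 : ℝ) / R)
      rw [sub_add_cancel] at this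
      linarith
    have k1 := Pht_lipu n hBp.le hbb (by linarith : |(P.1 : ℝ) / R| ≤ 1) hu1 (by linarith : |(P.2 : ℝ) / R| ≤ 2)
    have k2 := Pht_lipt n hBp.le hbb hu1 (by linarith : |(P.2 : ℝ) / R| ≤ 2) ht2
    rw [← hD] at k1 k2
    have k3 : 4 * D * |(P.1 : ℝ) / R - u₀| ≤ 1 / (4 * Q) := by
      calc 4 * D * |(P.1 : ℝ) / R - u₀| ≤ 4 * D * η := mul_le_mul_of_nonneg_left hu₀ (by positivity)
        _ ≤ c * θ / 2 := by
            have : 0 < D * η := by positivity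
            linarith
        _ ≤ c / 2 := by
            have : c * θ ≤ c := by nlinarith
            linarith
        _ = 1 / (4 * Q) := by
            rw [hc]
            field_simp
            norm_num
    have k4 : 2 * D * |(P.2 : ℝ) / R - t| ≤ 1 / (4 * Q) := by
      rw [abs_sub_comm]
      calc 2 * D * |t - (P.2 : ℝ) / R| ≤ 2 * D * (2 * θ) := mul_le_mul_of_nonneg_left ht (by positivity)
        _ = 4 * (D * θ) := by ring
        _ = 1 / (4 * Q) := by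
            rw [hDθ]
            field_simp
            norm_num
    have k5 : |Pht n (ga n e R) (P.1 / R) (P.2 / R)| ≤ |Pht n (ga n e R) u₀ t| +
        |Pht n (ga n e R) (P.1 / R) (P.2 / R) - Pht n (ga n e R) u₀ (P.2 / R)| +
        |Pht n (ga n e R) u₀ (P.2 / R) - Pht n (ga n e R) u₀ t| := by
      have e1 : Pht n (ga n e R) (P.1 / R) (P.2 / R) = Pht n (ga n e R) u₀ t +
        (Pht n (ga n e R) (P.1 / R) (P.2 / R) - Pht n (ga n e R) u₀ (P.2 / R)) +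
        (Pht n (ga n e R) u₀ (P.2 / R) - Pht n (ga n e R) u₀ t) := by ring
      calc |Pht n (ga n e R) (P.1 / R) (P.2 / R)| = |Pht n (ga n e R) u₀ t +
            (Pht n (ga n e R) (P.1 / R) (P.2 / R) - Pht n (ga n e R) u₀ (P.2 / R)) +
            (Pht n (ga n e R) u₀ (P.2 / R) - Pht n (ga n e R) u₀ t)| := by rw [← e1]
        _ ≤ _ := (abs_add_le _ _).trans (add_le_add (abs_add_le _ _) le_rfl)
    have k6 : c = 1 / Q - 1 / (4 * Q) - 1 / (4 * Q) := by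
      rw [hc]
      field_simp
      norm_num
    rw [k6]
    linarith
  -- near a point there is a root
  have hroot : ∀ P ∈ T, ∀ u₀ : ℝ, |(P.1 : ℝ) / R - u₀| ≤ η → ∃ r : ℝ, Ph n (ga n e R) u₀ r = 0 ∧ |(P.2 : ℝ) / R - r| ≤ θ := by
    intro P hP u₀ hu₀
    obtain ⟨h1, h2, h3, h4⟩ := hpt P hP
    have hu1 : |u₀| ≤ 1 := by
      have := abs_sub ((P.1 : ℝ) / R) ((P.1 : ℝ) / R - u₀)
      rw [sub_sub_cancel] at this
      linarith
    have k1 := Ph_lipu n hBp.le hbb hu1 (by linarith : |(P.1 : ℝ) / R| ≤ 1) (by linarith : |(P.2 : ℝ) / R| ≤ 2)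
    rw [← hD] at k1
    have k2 : D * |u₀ - (P.1 : ℝ) / R| ≤ c * θ / 4 := by
      rw [abs_sub_comm]
      have h5 := mul_le_mul_of_nonneg_left hu₀ hD0.le
      have h6 : 0 < c * θ := by positivity
      linarith
    have k3 : |Ph n (ga n e R) u₀ (P.2 / R)| < c * θ := by
      have e1 : Ph n (ga n e R) u₀ (P.2 / R) = (Ph n (ga n e R) u₀ (P.2 / R) - Ph n (ga n e R) (P.1 / R) (P.2 / R)) +
        Ph n (ga n e R) (P.1 / R) (P.2 / R) := by ring
      rw [e1]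
      have h6 : 0 < c * θ := by positivity
      refine lt_of_le_of_lt (abs_add_le _ _) ?_
      linarith
    obtain ⟨r, hr, hr'⟩ := root_any (fun t => Ph n (ga n e R) u₀ t - Ph n (ga n e R) u₀ (P.2 / R)) (fun t => Pht n (ga n e R) u₀ t)
      (fun t => Ph n (ga n e R) u₀ t) ((P.2 : ℝ) / R) c θ |Ph n (ga n e R) u₀ (P.2 / R)| hc0 hθ0
      (fun t => (hasDerivAt_Ph n (ga n e R) u₀ t).sub_const _) (sub_self _)
      (fun t ht => hder P hP u₀ hu₀ t (ht.trans (by linarith)))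
      (continuous_iff_continuousAt.2 fun t => (hasDerivAt_Ph n (ga n e R) u₀ t).continuousAt) k3
      (fun t _ => by
        refine le_of_eq ?_
        congr 1
        ring)
    exact ⟨r, hr', by rw [abs_sub_comm]; exact hr⟩
  -- the cells
  choose Z hZc hZ using fun i : ℤ => roots_box n e hI.1 R ((i : ℝ) * η)
  obtain ⟨I, hIe⟩ : ∃ I : Finset ℤ, I = T.image fun P => ⌊(P.1 : ℝ) / R / η⌋ := ⟨_, rfl⟩
  obtain ⟨Cc, hCc⟩ : ∃ Cc : ℝ, Cc = 4 * (4 * C₁ + 32 * q + 2) + (4 * (n : ℝ) ^ 2 + 2) * (4 * C₁ + 16 * q + 1) * (3 * n) := ⟨_, rfl⟩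
  have hCc0 : 0 ≤ Cc := by
    rw [hCc]
    positivity
  have hcell : ∀ i : ℤ, ∀ r ∈ Z i, ((T.filter fun P => |(P.1 : ℝ) / R - i * η| ≤ η ∧ |(P.2 : ℝ) / R - r| ≤ θ).card : ℝ) ≤
      Cc * v ^ 33 := by
    intro i r hri
    have hr0 := (hZ i r).2 hri
    by_cases hne : (T.filter fun P => |(P.1 : ℝ) / R - i * η| ≤ η ∧ |(P.2 : ℝ) / R - r| ≤ θ).Nonempty
    · obtain ⟨P₀, hP₀⟩ := hne
      rw [Finset.mem_filter] at hP₀
      obtain ⟨hP₀T, a1, a2⟩ := hP₀
      obtain ⟨b1, b2, _, _⟩ := hpt P₀ hP₀T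
      have hu1 : |(i : ℝ) * η| + 2 * η ≤ 1 := by
        have := abs_sub ((P₀.1 : ℝ) / R) ((P₀.1 : ℝ) / R - i * η)
        rw [sub_sub_cancel] at this
        linarith
      have hr2 : |r| + θ ≤ 2 := by
        have := abs_sub ((P₀.2 : ℝ) / R) ((P₀.2 : ℝ) / R - r)
        rw [sub_sub_cancel] at this
        linarith
      have hd : ∀ t, |t - r| ≤ θ → c ≤ |Pht n (ga n e R) (i * η) t| := by
        intro t ht
        refine hder P₀ hP₀T _ a1 t ?_
        have e1 : t - (P₀.2 : ℝ) / R = (t - r) - ((P₀.2 : ℝ) / R - r) := by ring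
        rw [e1]
        refine (abs_sub _ _).trans ?_
        linarith
      have h1 := cellz n hn B c θ η _ _ R hBp hc0 hθ0 (by linarith) hη0 hηD hcη rfl rfl hR1 hRη e H hH hHR hb hI (i * η) r hu1 hr2 hr0 hd
        (T.filter fun P => |(P.1 : ℝ) / R - i * η| ≤ η ∧ |(P.2 : ℝ) / R - r| ≤ θ) (by
          intro P hP
          rw [Finset.mem_filter] at hP
          exact ⟨(hT P hP.1).1, hP.2.1, hP.2.2⟩)
      refine h1.trans ?_
      rw [← hD]
      have e2 : 2 / c = 4 * Q := by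
        rw [hc]
        field_simp
        norm_num
      have e3 : 16 / c = 32 * Q := by
        rw [hc]
        field_simp
        norm_num
      have e4 : 8 / c = 16 * Q := by
        rw [hc]
        field_simp
        norm_num
      have e5 : R ^ (5 / 6 : ℝ) = v ^ 30 := by
        rw [hRv, ← Real.rpow_natCast v 36, ← Real.rpow_mul hv0.le, ← Real.rpow_natCast v 30]
        norm_num
      rw [e2, e3, e4, e5]
      have hC₂ : 4 * Q * (D * (1 + (4 * Q * D) ^ 2)) ≤ C₁ * v ^ 3 := by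
        have e6 : 4 * Q * (D * (1 + (4 * Q * D) ^ 2)) = 4 * q * D * (v + (4 * q * D) ^ 2 * v ^ 3) := by
          rw [hQ]
          ring
        have e7 : C₁ * v ^ 3 = 4 * q * D * (v ^ 3 + (4 * q * D) ^ 2 * v ^ 3) := by
          rw [hC₁]
          ring
        rw [e6, e7]
        have h3 : v ≤ v ^ 3 := le_self_pow₀ hv1 (by norm_num)
        gcongr
      have hQv : Q ≤ q * v ^ 3 := by
        rw [hQ]
        have h3 : v ≤ v ^ 3 := le_self_pow₀ hv1 (by norm_num)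
        exact mul_le_mul_of_nonneg_left h3 hq0.le
      have hv3 : (1 : ℝ) ≤ v ^ 3 := one_le_pow₀ hv1
      obtain ⟨C₂, hC₂e⟩ : ∃ C₂ : ℝ, C₂ = 4 * Q * (D * (1 + (4 * Q * D) ^ 2)) := ⟨_, rfl⟩
      rw [← hC₂e] at hC₂ ⊢
      have h5 : 4 * (4 * C₂ + 32 * Q + 1 + 1) + (4 * (n : ℝ) ^ 2 + 2) * (4 * C₂ + 16 * Q + 1) * (3 * n) ≤ Cc * v ^ 3 := by
        have e9 : Cc * v ^ 3 = 4 * (4 * C₁ + 32 * q + 2) * v ^ 3 +
            (4 * (n : ℝ) ^ 2 + 2) * (4 * C₁ + 16 * q + 1) * (3 * n) * v ^ 3 := by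
          rw [hCc]
          ring
        rw [e9]
        refine add_le_add ?_ ?_
        · have e8 : 4 * (4 * C₁ + 32 * q + 2) * v ^ 3 = 4 * (4 * (C₁ * v ^ 3) + 32 * (q * v ^ 3) + 2 * v ^ 3) := by ring
          rw [e8]
          linarith
        · have e8 : (4 * (n : ℝ) ^ 2 + 2) * (4 * C₁ + 16 * q + 1) * (3 * n) * v ^ 3 =
              (4 * (n : ℝ) ^ 2 + 2) * (4 * (C₁ * v ^ 3) + 16 * (q * v ^ 3) + v ^ 3) * (3 * n) := by ring
          rw [e8]
          have h6 : 4 * C₂ + 16 * Q + 1 ≤ 4 * (C₁ * v ^ 3) + 16 * (q * v ^ 3) + v ^ 3 := by linarith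
          gcongr
      calc _ ≤ Cc * v ^ 3 * v ^ 30 := mul_le_mul_of_nonneg_right h5 (by positivity)
        _ = Cc * v ^ 33 := by ring
    · rw [Finset.not_nonempty_iff_eq_empty.1 hne, Finset.card_empty]
      push_cast
      positivity
  have hsub : T ⊆ I.biUnion fun i => (Z i).biUnion fun r =>
      T.filter fun P => |(P.1 : ℝ) / R - i * η| ≤ η ∧ |(P.2 : ℝ) / R - r| ≤ θ := by
    intro P hP
    have h1 := hcen P hP
    obtain ⟨r, hr, hr'⟩ := hroot P hP _ h1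
    rw [Finset.mem_biUnion]
    refine ⟨⌊(P.1 : ℝ) / R / η⌋, by rw [hIe]; exact Finset.mem_image_of_mem _ hP, ?_⟩
    rw [Finset.mem_biUnion]
    exact ⟨r, (hZ _ r).1 hr, Finset.mem_filter.2 ⟨hP, h1, hr'⟩⟩
  have h1 : (T.card : ℝ) ≤ ∑ i ∈ I, ∑ r ∈ Z i,
      ((T.filter fun P => |(P.1 : ℝ) / R - i * η| ≤ η ∧ |(P.2 : ℝ) / R - r| ≤ θ).card : ℝ) := by
    have h2 := (Finset.card_le_card hsub).trans Finset.card_biUnion_le
    have h3 : T.card ≤ ∑ i ∈ I, ∑ r ∈ Z i, (T.filter fun P => |(P.1 : ℝ) / R - i * η| ≤ η ∧ |(P.2 : ℝ) / R - r| ≤ θ).card :=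
      h2.trans (Finset.sum_le_sum fun i _ => Finset.card_biUnion_le)
    exact_mod_cast h3
  have h2 : ∀ i ∈ I, ∑ r ∈ Z i, ((T.filter fun P => |(P.1 : ℝ) / R - i * η| ≤ η ∧ |(P.2 : ℝ) / R - r| ≤ θ).card : ℝ) ≤
      n * (Cc * v ^ 33) := by
    intro i _
    refine (Finset.sum_le_card_nsmul _ _ _ fun r hr => hcell i r hr).trans ?_
    rw [nsmul_eq_mul]
    have h3 : ((Z i).card : ℝ) ≤ n := by exact_mod_cast hZc i
    exact mul_le_mul_of_nonneg_right h3 (by positivity)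
  have h3 : (T.card : ℝ) ≤ I.card * (n * (Cc * v ^ 33)) := by
    refine h1.trans ((Finset.sum_le_card_nsmul _ _ _ h2).trans ?_)
    rw [nsmul_eq_mul]
  have h4 : (I.card : ℝ) ≤ 8192 * (D * q) ^ 2 * v ^ 2 := by
    have hIsub : I ⊆ Finset.Icc ⌊-(1 / (2 * η))⌋ ⌊1 / (2 * η)⌋ := by
      intro i hi
      rw [hIe] at hi
      obtain ⟨P, hP, rfl⟩ := Finset.mem_image.1 hi
      obtain ⟨b1, _, _, _⟩ := hpt P hP
      rw [abs_le] at b1
      have e1 : 1 / (2 * η) = 1 / 2 / η := by field_simp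
      rw [Finset.mem_Icc]
      constructor
      · apply Int.floor_le_floor
        rw [e1, ← neg_div]
        exact div_le_div_of_nonneg_right b1.1 hη0.le
      · apply Int.floor_le_floor
        rw [e1]
        exact div_le_div_of_nonneg_right b1.2 hη0.le
    have h5 := Finset.card_le_card hIsub
    rw [Int.card_Icc] at h5
    have h6 := Int.floor_le (1 / (2 * η))
    have h7 := Int.sub_one_lt_floor (-(1 / (2 * η)))
    have h8 : 0 ≤ ⌊1 / (2 * η)⌋ := Int.floor_nonneg.2 (by positivity)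
    have h9 : ⌊-(1 / (2 * η))⌋ ≤ 0 := by
      have : ⌊-(1 / (2 * η))⌋ ≤ ⌊(0 : ℝ)⌋ := Int.floor_le_floor (by
        have : 0 < 1 / (2 * η) := by positivity
        linarith)
      rwa [Int.floor_zero] at this
    have h10 : (I.card : ℤ) ≤ ⌊1 / (2 * η)⌋ + 1 - ⌊-(1 / (2 * η))⌋ := by omega
    have h11 : ((I.card : ℤ) : ℝ) ≤ ((⌊1 / (2 * η)⌋ + 1 - ⌊-(1 / (2 * η))⌋ : ℤ) : ℝ) := by exact_mod_cast h10
    push_cast at h11
    have h12 : 8192 * (D * q) ^ 2 * v ^ 2 = 4 / η := by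
      rw [hη, hQ]
      field_simp
      norm_num
    rw [h12]
    have h13 : (2 : ℝ) ≤ 2 / η := by
      rw [le_div_iff₀ hη0]
      linarith
    have e2 : 4 / η = 1 / (2 * η) + 1 / (2 * η) + 2 / η + 1 / η := by
      field_simp
      norm_num
    rw [e2]
    have h14 : 0 < 1 / η := by positivity
    linarith
  calc (T.card : ℝ) ≤ I.card * (n * (Cc * v ^ 33)) := h3
    _ ≤ 8192 * (D * q) ^ 2 * v ^ 2 * (n * (Cc * v ^ 33)) := mul_le_mul_of_nonneg_right h4 (by positivity)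
    _ = 8192 * (D * q) ^ 2 * (n * Cc) * v ^ 35 := by ring
    _ ≤ (B : ℝ) ^ k * v ^ 35 := by
        rw [hCc]
        exact mul_le_mul_of_nonneg_right hkB (by positivity)

end Pool.Agent.H99.VY
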