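import Pool.Agent.H99.UC.Dpol
import Pool.Agent.H99.VX.Pb
import Pool.Agent.H99.VX.Pe
import Pool.Agent.H99.VY.Ga

/-! # [H99 VY GOODX] A large discriminant of `F(x,·)` makes `Φ` or `Φ_t` large

`lowR`: real version of `H99/VX/Gdr` `low`; `gres`: the resultant of `Φ(u,·)`, `Φ_t(u,·)` is `dis(x) / R^(n(n-1))`. -/

namespace Pool.Agent.H99.VY

open Polynomial Pool.Agent.H8.AA Pool.Agent.H6.AB Pool.Agent.H99.UC Pool.Agent.H99.VX

/-- shifted sum of the coefficients -/
private theorem shift_sum (g : ℝ[X]) {d N j : ℕ} (hg : g.natDegree ≤ d) (hj : j + d < N) (t : ℝ) :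
    ∑ i : Fin N, t ^ (i : ℕ) * ((if (i : ℕ) ∈ Set.Icc j (j + d) then g.coeff (i - j) else 0)) =
      t ^ j * eval t g := by
  rw [Fin.sum_univ_eq_sum_range
    (fun i => t ^ i * ((if i ∈ Set.Icc j (j + d) then g.coeff (i - j) else 0))) N]
  have h1 : ∑ i ∈ Finset.range N, t ^ i * ((if i ∈ Set.Icc j (j + d) then g.coeff (i - j) else 0)) =
      ∑ i ∈ Finset.Ico j (j + (d + 1)), t ^ i * (g.coeff (i - j)) := by
    symm
    have hsub : Finset.Ico j (j + (d + 1)) ⊆ Finset.range N := by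
      intro i hi
      rw [Finset.mem_Ico] at hi
      rw [Finset.mem_range]
      omega
    rw [← Finset.sum_subset hsub]
    · refine Finset.sum_congr rfl fun i hi => ?_
      rw [Finset.mem_Ico] at hi
      rw [if_pos (Set.mem_Icc.2 ⟨by omega, by omega⟩)]
    · intro i _ hi
      rw [Finset.mem_Ico] at hi
      rw [if_neg]
      · simp
      · rw [Set.mem_Icc]
        omega
  rw [h1, Finset.sum_Ico_eq_sum_range, Polynomial.eval_eq_sum_range' (n := d + 1) (by omega),
    Finset.mul_sum]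
  have h2 : j + (d + 1) - j = d + 1 := by omega
  rw [h2]
  refine Finset.sum_congr rfl fun i _ => ?_
  have h3 : j + i - j = i := by omega
  rw [h3, pow_add]
  ring

/-- lower bound for two real polynomials through their resultant -/
theorem lowR {f g : ℝ[X]} {m d : ℕ} (hf : f.natDegree ≤ m) (hg : g.natDegree ≤ d) (hN : 0 < m + d)
    {C : ℝ} (hC : 1 ≤ C) (hfC : ∀ j, |f.coeff j| ≤ C) (hgC : ∀ j, |g.coeff j| ≤ C) {t : ℝ} (ht : |t| ≤ 1) :
    |f.resultant g m d| ≤ ((m + d : ℕ) : ℝ) * (((m + d).factorial : ℝ) * C ^ (m + d)) * max |eval t f| |eval t g| := by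
  classical
  obtain ⟨M, hM⟩ : ∃ M : ℝ, M = max |eval t f| |eval t g| := ⟨_, rfl⟩
  rw [← hM]
  have hM0 : 0 ≤ M := by
    rw [hM]
    exact le_trans (abs_nonneg _) (le_max_left _ _)
  obtain ⟨S, hS⟩ : ∃ S, S = sylvester f g m d := ⟨_, rfl⟩
  have hSe : ∀ i j, |S i j| ≤ C := by
    intro i j
    rw [hS]
    induction j using Fin.addCases with
    | left j =>
      simp only [sylvester, Matrix.of_apply, Fin.addCases_left]
      split_ifs
      · exact hgC _
      · rw [abs_zero]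
        linarith
    | right j =>
      simp only [sylvester, Matrix.of_apply, Fin.addCases_right]
      split_ifs
      · exact hfC _
      · rw [abs_zero]
        linarith
  have hadj : ∀ i j, |S.adjugate i j| ≤ ((m + d).factorial : ℝ) * C ^ (m + d) := by
    intro i j
    rw [Matrix.adjugate_apply]
    have h1 := Matrix.det_le (A := S.updateRow j (Pi.single i 1)) (abv := AbsoluteValue.abs) (x := C) ?_
    · simpa using h1
    · intro a b
      rw [AbsoluteValue.abs_apply, Matrix.updateRow_apply]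
      split_ifs with h
      · rw [Pi.single_apply]
        split_ifs
        · simpa using hC
        · rw [abs_zero]
          linarith
      · exact hSe a b
  have hp : ∀ l : ℕ, |t ^ l| ≤ 1 := by
    intro l
    rw [abs_pow]
    exact pow_le_one₀ (abs_nonneg _) ht
  have hcol : ∀ j, |∑ i : Fin (m + d), t ^ (i : ℕ) * S i j| ≤ M := by
    intro j
    rw [hS]
    induction j using Fin.addCases with
    | left j =>
      simp only [sylvester, Matrix.of_apply, Fin.addCases_left]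
      rw [shift_sum g hg (by omega) t, abs_mul]
      calc |t ^ (j : ℕ)| * |eval t g| ≤ 1 * |eval t g| :=
            mul_le_mul_of_nonneg_right (hp _) (abs_nonneg _)
        _ ≤ M := by
            rw [hM, one_mul]
            exact le_max_right _ _
    | right j =>
      simp only [sylvester, Matrix.of_apply, Fin.addCases_right]
      rw [shift_sum f hf (by omega) t, abs_mul]
      calc |t ^ (j : ℕ)| * |eval t f| ≤ 1 * |eval t f| :=
            mul_le_mul_of_nonneg_right (hp _) (abs_nonneg _)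
        _ ≤ M := by
            rw [hM, one_mul]
            exact le_max_left _ _
  have hdet : S.det = ∑ j : Fin (m + d), (∑ i : Fin (m + d), t ^ (i : ℕ) * S i j) *
      (S.adjugate j ⟨0, hN⟩) := by
    have h1 : ∀ i : Fin (m + d), ∑ j, S i j * S.adjugate j ⟨0, hN⟩ = if i = ⟨0, hN⟩ then S.det else 0 := by
      intro i
      have h2 := congrFun (congrFun (Matrix.mul_adjugate S) i) ⟨0, hN⟩
      rw [Matrix.mul_apply] at h2
      rw [h2, Matrix.smul_apply, Matrix.one_apply]
      split_ifs <;> simp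
    calc S.det = ∑ i : Fin (m + d), t ^ (i : ℕ) * (if i = ⟨0, hN⟩ then S.det else 0) := by
          rw [Finset.sum_eq_single ⟨0, hN⟩]
          · simp
          · intro i _ hi
            rw [if_neg hi]
            simp
          · intro h
            exact absurd (Finset.mem_univ _) h
      _ = ∑ i : Fin (m + d), t ^ (i : ℕ) * ∑ j, S i j * S.adjugate j ⟨0, hN⟩ := by
          refine Finset.sum_congr rfl fun i _ => ?_
          rw [← h1 i]
      _ = ∑ j : Fin (m + d), (∑ i : Fin (m + d), t ^ (i : ℕ) * S i j) * (S.adjugate j ⟨0, hN⟩) := by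
          simp only [Finset.mul_sum, Finset.sum_mul]
          rw [Finset.sum_comm]
          refine Finset.sum_congr rfl fun j _ => Finset.sum_congr rfl fun i _ => ?_
          ring
  have hdd : f.resultant g m d = S.det := by
    rw [hS]
    rfl
  calc |f.resultant g m d| ≤ ∑ j : Fin (m + d), |(∑ i : Fin (m + d), t ^ (i : ℕ) * S i j) * (S.adjugate j ⟨0, hN⟩)| := by
        rw [hdd, hdet]
        exact Finset.abs_sum_le_sum_abs _ _
    _ ≤ ∑ _j : Fin (m + d), M * (((m + d).factorial : ℝ) * C ^ (m + d)) := by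
        refine Finset.sum_le_sum fun j _ => ?_
        rw [abs_mul]
        exact mul_le_mul (hcol j) (hadj j ⟨0, hN⟩) (abs_nonneg _) hM0
    _ = ((m + d : ℕ) : ℝ) * (((m + d).factorial : ℝ) * C ^ (m + d)) * M := by
        rw [Finset.sum_const, Finset.card_univ, Fintype.card_fin, nsmul_eq_mul]
        ring

/-- `Φ(x/R, ·)` -/
noncomputable def pu (n : ℕ) (e : ℕ → ℕ → ℤ) (R : ℝ) (x : ℤ) : ℝ[X] := (P2 n (ga n e R)).map (evalRingHom ((x : ℝ) / R))

theorem pu_deg (n : ℕ) (e : ℕ → ℕ → ℤ) (R : ℝ) (x : ℤ) : (pu n e R x).natDegree ≤ n :=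
  natDegree_map_le.trans (P2_deg n _)

theorem pu_coeff (n : ℕ) (e : ℕ → ℕ → ℤ) (R : ℝ) (x : ℤ) (i : ℕ) :
    (pu n e R x).coeff i = if i ≤ n then ∑ k ∈ Finset.range (n + 1), ga n e R k i * ((x : ℝ) / R) ^ k else 0 := by
  unfold pu
  rw [coeff_map, P2_coeff]
  split_ifs
  · rw [map_sum]
    simp
  · simp

theorem spe_coeff (n : ℕ) (e : ℕ → ℕ → ℤ) (x : ℤ) (i : ℕ) :
    (spe n e x).coeff i = ∑ k ∈ Finset.range (n + 1), if i ≤ k then e (k - i) i * x ^ (k - i) else 0 := by
  unfold spe biv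
  rw [coeff_map, coeff_dsum, map_sum]
  refine Finset.sum_congr rfl fun k _ => ?_
  split_ifs <;> simp

theorem pu_spe (n : ℕ) (e : ℕ → ℕ → ℤ) (R : ℝ) (hR : 0 < R) (x : ℤ) (i : ℕ) (hi : i ≤ n) :
    (pu n e R x).coeff i * R ^ n = ((spe n e x).coeff i : ℝ) * R ^ i := by
  rw [pu_coeff, if_pos hi, spe_coeff]
  push_cast
  have h1 : ∑ k ∈ Finset.range (n + 1), ga n e R k i * ((x : ℝ) / R) ^ k =
      ∑ k ∈ Finset.range (n - i + 1), (e k i : ℝ) / R ^ (n - (k + i)) * ((x : ℝ) / R) ^ k := by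
    symm
    apply Finset.sum_subset_zero_on_sdiff
    · intro j hj
      rw [Finset.mem_range] at hj ⊢
      omega
    · intro j hj
      rw [Finset.mem_sdiff, Finset.mem_range, Finset.mem_range] at hj
      rw [ga, if_neg (by omega), zero_mul]
    · intro j hj
      rw [Finset.mem_range] at hj
      rw [ga, if_pos (by omega)]
  have h2 : ∑ k ∈ Finset.range (n + 1), (if i ≤ k then (e (k - i) i : ℝ) * (x : ℝ) ^ (k - i) else 0) =
      ∑ k ∈ Finset.range (n - i + 1), (e k i : ℝ) * (x : ℝ) ^ k := by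
    have h3 : n + 1 = i + (n - i + 1) := by omega
    rw [h3, Finset.sum_range_add]
    have h4 : ∑ k ∈ Finset.range i, (if i ≤ k then (e (k - i) i : ℝ) * (x : ℝ) ^ (k - i) else 0) = 0 := by
      refine Finset.sum_eq_zero fun k hk => ?_
      rw [Finset.mem_range] at hk
      rw [if_neg (by omega)]
    rw [h4, zero_add]
    refine Finset.sum_congr rfl fun k _ => ?_
    rw [if_pos (by omega), Nat.add_sub_cancel_left]
  rw [h1, h2, Finset.sum_mul, Finset.sum_mul]
  refine Finset.sum_congr rfl fun k hk => ?_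
  rw [Finset.mem_range] at hk
  have h5 : R ^ n = R ^ (n - (k + i)) * (R ^ k * R ^ i) := by
    rw [← pow_add, ← pow_add]
    congr 1
    omega
  have h6 : R ^ (n - (k + i)) ≠ 0 := pow_ne_zero _ hR.ne'
  have h7 : R ^ k ≠ 0 := pow_ne_zero _ hR.ne'
  rw [h5, div_pow]
  field_simp

theorem pu_map (n : ℕ) (e : ℕ → ℕ → ℤ) (R : ℝ) (hR : 0 < R) (x : ℤ) (a : ℂ) (r : Fin n → ℂ)
    (hr : (spe n e x).map (Int.castRingHom ℂ) = C a * ∏ i, (X - C (r i))) :
    (pu n e R x).map Complex.ofRealHom = C a * ∏ i, (X - C (r i / (R : ℂ))) := by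
  have hR0 : (R : ℂ) ≠ 0 := by exact_mod_cast hR.ne'
  have h1 : C ((R : ℂ) ^ n) * (pu n e R x).map Complex.ofRealHom =
      ((spe n e x).map (Int.castRingHom ℂ)).comp (C (R : ℂ) * X) := by
    ext i
    rw [coeff_C_mul, comp_C_mul_X_coeff, coeff_map, coeff_map]
    by_cases hi : i ≤ n
    · have h2 := congrArg (fun z : ℝ => (z : ℂ)) (pu_spe n e R hR x i hi)
      push_cast at h2
      simp only [Complex.ofRealHom_eq_coe, eq_intCast]
      rw [mul_comm]
      exact h2
    · have h3 : (pu n e R x).coeff i = 0 := by rw [pu_coeff, if_neg hi]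
      have h4 : (spe n e x).coeff i = 0 := by
        rw [spe_coeff]
        refine Finset.sum_eq_zero fun k hk => ?_
        rw [Finset.mem_range] at hk
        rw [if_neg (by omega)]
      rw [h3, h4]
      simp
  have h2 : (C a * ∏ i, (X - C (r i))).comp (C (R : ℂ) * X) = C ((R : ℂ) ^ n) * (C a * ∏ i, (X - C (r i / (R : ℂ)))) := by
    rw [mul_comp, C_comp, prod_comp]
    have h3 : ∀ i : Fin n, (X - C (r i)).comp (C (R : ℂ) * X) = C (R : ℂ) * (X - C (r i / (R : ℂ))) := by
      intro i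
      rw [sub_comp, X_comp, C_comp, mul_sub, ← C_mul, mul_div_cancel₀ _ hR0]
    rw [Finset.prod_congr rfl fun i _ => h3 i, Finset.prod_mul_distrib, Finset.prod_const, Finset.card_univ, Fintype.card_fin,
      C_pow]
    ring
  have h3 : C ((R : ℂ) ^ n) ≠ (0 : ℂ[X]) := by
    rw [Ne, C_eq_zero]
    exact pow_ne_zero _ hR0
  refine mul_left_cancel₀ h3 ?_
  rw [h1, hr, h2]

/-- the resultant of `Φ(u,·)` and its derivative -/
theorem gres (n : ℕ) (hn : 2 ≤ n) (e : ℕ → ℕ → ℤ) (h : e 0 n ≠ 0) (R : ℝ) (hR : 0 < R) (x : ℤ) :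
    resultant (pu n e R x) (derivative (pu n e R x)) n (n - 1) * R ^ (n * (n - 1)) = (((dis n e).eval x : ℤ) : ℝ) := by
  obtain ⟨hd, hl⟩ := spe_deg n e h x
  have hp0 : spe n e x ≠ 0 := by
    intro h0
    rw [h0, natDegree_zero] at hd
    omega
  obtain ⟨r, hr⟩ := factor n (spe n e x) hd hp0
  rw [hl] at hr
  have ha : ((e 0 n : ℤ) : ℂ) ≠ 0 := by exact_mod_cast h
  have h1 := res_prod (by omega) _ ha r _ hr
  have h2 := res_prod (by omega) _ ha _ _ (pu_map n e R hR x _ r hr)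
  rw [derivative_map, resultant_map_map] at h1 h2
  rw [dis_eval]
  have hR0 : (R : ℂ) ≠ 0 := by exact_mod_cast hR.ne'
  have h3 : ∏ k : Fin n, ∏ j ∈ Finset.univ.erase k, (r k / (R : ℂ) - r j / (R : ℂ)) =
      (∏ k : Fin n, ∏ j ∈ Finset.univ.erase k, (r k - r j)) / (R : ℂ) ^ (n * (n - 1)) := by
    have h4 : ∀ k : Fin n, ∏ j ∈ Finset.univ.erase k, (r k / (R : ℂ) - r j / (R : ℂ)) =
        (∏ j ∈ Finset.univ.erase k, (r k - r j)) / (R : ℂ) ^ (n - 1) := by
      intro k
      rw [Finset.prod_congr rfl fun j _ => (sub_div (r k) (r j) (R : ℂ)).symm, Finset.prod_div_distrib, Finset.prod_const,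
        Finset.card_erase_of_mem (Finset.mem_univ k), Finset.card_univ, Fintype.card_fin]
    rw [Finset.prod_congr rfl fun k _ => h4 k, Finset.prod_div_distrib, Finset.prod_const, Finset.card_univ, Fintype.card_fin,
      ← pow_mul, mul_comm (n - 1) n]
  rw [h3, ← mul_div_assoc, ← h1] at h2
  have h5 : (R : ℂ) ^ (n * (n - 1)) ≠ 0 := pow_ne_zero _ hR0
  rw [eq_div_iff h5] at h2
  simp only [Complex.ofRealHom_eq_coe, eq_intCast] at h2
  exact_mod_cast h2

/-- explicit exponent -/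
theorem goodxe (n : ℕ) (hn : 2 ≤ n) : ∀ B : ℕ, 2 ≤ B → ∀ e : ℕ → ℕ → ℤ, Ir n e → ∀ R : ℝ, 0 < R →
    (∀ a b, a + b ≤ n → |(e a b : ℝ)| ≤ (B : ℝ) * R ^ (n - (a + b))) → ∀ x : ℤ, |(x : ℝ)| ≤ R → ∀ ρ : ℝ,
    ρ * R ^ (n * (n - 1)) ≤ |(((dis n e).eval x : ℤ) : ℝ)| → ∀ t : ℝ, |t| ≤ 1 →
    ρ ≤ (B : ℝ) ^ (10 * n ^ 2) * max |Ph n (ga n e R) (x / R) t| |Pht n (ga n e R) (x / R) t| := by
  obtain ⟨N, hN⟩ : ∃ N, N = n + (n - 1) := ⟨_, rfl⟩
  have hfac : ((N.factorial : ℕ) : ℝ) ≤ 2 ^ (N * N) := by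
    have h1 : N.factorial ≤ N ^ N := Nat.factorial_le_pow N
    have h2 : N ^ N ≤ (2 ^ N) ^ N := Nat.pow_le_pow_left (Nat.lt_two_pow_self (n := N)).le N
    rw [pow_mul]
    exact_mod_cast h1.trans h2
  have hsq : ((n : ℝ) + 1) ^ 2 ≤ 2 ^ (2 * n) := by
    rw [mul_comm 2 n, pow_mul]
    exact pow_le_pow_left₀ (by positivity) (n1_le n) 2
  have hpe : PE (10 * n ^ 2) fun B => ((N : ℕ) : ℝ) * (((N.factorial : ℕ) : ℝ) *
      (((n : ℝ) + 1) ^ 2 * (B : ℝ)) ^ N) := by
    refine pe_mul (k := N) (l := N * N + (2 * n + 1) * N) (pe_const (by positivity) (n_le N))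
      (pe_mul (k := N * N) (l := (2 * n + 1) * N) (pe_const (by positivity) hfac)
        (pe_npow (k := 2 * n + 1) (pe_mul (k := 2 * n) (l := 1) (pe_const (by positivity) hsq) pe_id le_rfl) N le_rfl)
        le_rfl) ?_
    have h1 : N ≤ 2 * n := by omega
    have h2 : N + (N * N + (2 * n + 1) * N) = N * (N + 2 * n + 2) := by ring
    have h3 : N + 2 * n + 2 ≤ 5 * n := by omega
    rw [h2]
    calc N * (N + 2 * n + 2) ≤ (2 * n) * (5 * n) := Nat.mul_le_mul h1 h3
      _ = 10 * n ^ 2 := by ring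
  have hk : ∀ B : ℕ, 2 ≤ B → ((N : ℕ) : ℝ) * (((N.factorial : ℕ) : ℝ) *
      (((n : ℝ) + 1) ^ 2 * (B : ℝ)) ^ N) ≤ (B : ℝ) ^ (10 * n ^ 2) := fun B hB => (hpe B hB).2
  rw [hN] at hk
  intro B hB e hI R hR hb x hx ρ hρ t ht
  have hB2 : (2 : ℝ) ≤ B := by exact_mod_cast hB
  have hn0 : (0 : ℝ) ≤ n := Nat.cast_nonneg n
  have hcoef : ∀ i, |(pu n e R x).coeff i| ≤ ((n : ℝ) + 1) * B := by
    intro i
    rw [pu_coeff]
    split_ifs with hi
    · refine (Finset.abs_sum_le_sum_abs _ _).trans ?_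
      calc _ ≤ ∑ _k ∈ Finset.range (n + 1), (B : ℝ) := by
            refine Finset.sum_le_sum fun k hk => ?_
            rw [abs_mul, abs_pow, abs_div, abs_of_pos hR]
            have h1 : |ga n e R k i| ≤ B := by
              unfold ga
              split_ifs with hki
              · rw [abs_div, abs_of_pos (pow_pos hR _), div_le_iff₀ (pow_pos hR _)]
                exact hb k i hki
              · rw [abs_zero]
                linarith
            have h2 : (|(x : ℝ)| / R) ^ k ≤ 1 := by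
              refine pow_le_one₀ (by positivity) ?_
              rw [div_le_one hR]
              exact hx
            calc |ga n e R k i| * (|(x : ℝ)| / R) ^ k ≤ B * 1 :=
                  mul_le_mul h1 h2 (by positivity) (by linarith)
              _ = B := mul_one _
        _ = ((n : ℝ) + 1) * B := by
            rw [Finset.sum_const, Finset.card_range, nsmul_eq_mul]
            push_cast
            ring
    · rw [abs_zero]
      positivity
  have hC1 : (1 : ℝ) ≤ ((n : ℝ) + 1) ^ 2 * B := by nlinarith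
  have hf : ∀ i, |(pu n e R x).coeff i| ≤ ((n : ℝ) + 1) ^ 2 * B := by
    intro i
    refine (hcoef i).trans ?_
    refine mul_le_mul_of_nonneg_right ?_ (by linarith)
    nlinarith
  have hg : ∀ i, |(derivative (pu n e R x)).coeff i| ≤ ((n : ℝ) + 1) ^ 2 * B := by
    intro i
    rw [coeff_derivative, abs_mul]
    by_cases hi : i + 1 ≤ n
    · have h1 : |((i : ℝ) + 1)| ≤ (n : ℝ) + 1 := by
        rw [abs_of_nonneg (by positivity)]
        have : ((i + 1 : ℕ) : ℝ) ≤ n := by exact_mod_cast hi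
        push_cast at this
        linarith
      calc _ ≤ ((n : ℝ) + 1) * B * ((n : ℝ) + 1) := mul_le_mul (hcoef _) h1 (abs_nonneg _) (by positivity)
        _ = _ := by ring
    · rw [pu_coeff, if_neg hi, abs_zero, zero_mul]
      positivity
  have hdd : (derivative (pu n e R x)).natDegree ≤ n - 1 := by
    have := natDegree_derivative_le (pu n e R x)
    have := pu_deg n e R x
    omega
  have h1 := lowR (pu_deg n e R x) hdd (by omega) hC1 hf hg ht
  have h2 : eval t (pu n e R x) = Ph n (ga n e R) (x / R) t := by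
    unfold pu
    rw [P2_eval]
    rfl
  have h3 : eval t (derivative (pu n e R x)) = Pht n (ga n e R) (x / R) t := by
    unfold pu
    rw [P2_eval_der]
  rw [h2, h3] at h1
  have h4 := gres n hn e hI.1 R hR x
  have h5 : ρ ≤ |resultant (pu n e R x) (derivative (pu n e R x)) n (n - 1)| := by
    rw [← h4, abs_mul, abs_of_pos (pow_pos hR _)] at hρ
    exact le_of_mul_le_mul_right hρ (pow_pos hR _)
  refine h5.trans (h1.trans ?_)
  refine mul_le_mul_of_nonneg_right (hk B hB) ?_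
  exact le_trans (abs_nonneg _) (le_max_left _ _)

theorem goodx (n : ℕ) (hn : 2 ≤ n) : ∃ k : ℕ, ∀ B : ℕ, 2 ≤ B → ∀ e : ℕ → ℕ → ℤ, Ir n e → ∀ R : ℝ, 0 < R →
    (∀ a b, a + b ≤ n → |(e a b : ℝ)| ≤ (B : ℝ) * R ^ (n - (a + b))) → ∀ x : ℤ, |(x : ℝ)| ≤ R → ∀ ρ : ℝ,
    ρ * R ^ (n * (n - 1)) ≤ |(((dis n e).eval x : ℤ) : ℝ)| → ∀ t : ℝ, |t| ≤ 1 →
    ρ ≤ (B : ℝ) ^ k * max |Ph n (ga n e R) (x / R) t| |Pht n (ga n e R) (x / R) t| :=
  ⟨10 * n ^ 2, goodxe n hn⟩

end Pool.Agent.H99.VY
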