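import Pool.Agent.H99.VX.Smx
import Pool.Agent.H99.VY.Badx
import Pool.Agent.H99.VY.Goodx
import Pool.Agent.H99.VY.Coverz

/-! # [H99 VY SMY] The small range, `S^(1-1/(36 n²))` in place of `S` -/

namespace Pool.Agent.H99.VY

open Polynomial Pool.Agent.H8.AA Pool.Agent.H99.UC Pool.Agent.H99.VX

/-- `smy` with an explicit exponent -/
theorem smye (n : ℕ) (hn : 4 ≤ n) (K₀ : ℕ) : ∀ B : ℕ, 2 ≤ B → ∀ e : ℕ → ℕ → ℤ, Ir n e →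
    (∀ a b, a + b = n → |e a b| ≤ (B : ℤ)) → ∀ (S H : ℕ), 1 ≤ S → 1 ≤ H → H ^ 2 ≤ S ^ n →
    (∀ a b, a + b < n → |e a b| ≤ ((S : ℤ) ^ (n - (a + b)))) → ∀ T : Finset (ℤ × ℤ),
    (∀ P ∈ T, |ev n e P.1 P.2| ≤ (H : ℤ) ∧ |P.2| ≤ |P.1| ∧ |P.1| ≤ (B : ℤ) ^ K₀ * S) →
    (T.card : ℝ) ≤ (B : ℝ) ^ (900 * n ^ 2 + K₀) *
      ((S : ℝ) ^ (1 - 1 / (36 * (n : ℝ) ^ 2)) + (H : ℝ) ^ (2 / (n : ℝ)) * (1 + Real.log H)) := by
  classical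
  obtain ⟨kg, hkg⟩ : ∃ kg : ℕ, kg = 10 * n ^ 2 := ⟨_, rfl⟩
  obtain ⟨kb, hkb⟩ : ∃ kb : ℕ, kb = 10 * n ^ 2 := ⟨_, rfl⟩
  obtain ⟨ks, hks⟩ : ∃ ks : ℕ, ks = 10 * n ^ 2 := ⟨_, rfl⟩
  obtain ⟨kc, hkc⟩ : ∃ kc : ℕ, kc = 64 * n ^ 2 := ⟨_, rfl⟩
  obtain ⟨Kv, hKv⟩ : ∃ Kv : ℕ, Kv = 24 * n ^ 2 := ⟨_, rfl⟩
  have hg := goodxe n (by omega)
  have hbx := badxe n (by omega)
  have hsx := smxe n (by omega)
  have hcz := coverze n hn
  rw [← hkg] at hg hcz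
  rw [← hkb] at hbx
  rw [← hks] at hsx
  rw [← hkc, ← hKv] at hcz
  obtain ⟨E, hE⟩ : ∃ E : ℝ, E = 1 - 1 / (36 * (n : ℝ) ^ 2) := ⟨_, rfl⟩
  have hn4 : (4 : ℝ) ≤ n := by exact_mod_cast hn
  have hn0 : (0 : ℝ) < n := by linarith
  have hn2 : (16 : ℝ) ≤ (n : ℝ) ^ 2 := by nlinarith
  have hEq : 1 / (36 * (n : ℝ) ^ 2) ≤ 1 / 576 := by
    apply one_div_le_one_div_of_le (by norm_num)
    linarith
  have hE0 : 35 / 36 ≤ E := by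
    rw [hE]
    linarith
  have hE1 : E ≤ 1 := by
    rw [hE]
    have : 0 ≤ 1 / (36 * (n : ℝ) ^ 2) := by positivity
    linarith
  obtain ⟨k, hke⟩ : ∃ k : ℕ, k = 900 * n ^ 2 + K₀ := ⟨_, rfl⟩
  have hn16 : 16 ≤ n ^ 2 := by nlinarith
  have hk : PE k fun B => (B : ℝ) ^ ks * ((B : ℝ) ^ (36 * Kv) + 1) + ((B : ℝ) ^ kb * ((B : ℝ) ^ (K₀ + 1) + 1) +
      (B : ℝ) ^ kc * (B : ℝ) ^ (K₀ + 1)) :=
    pe_add (pe_mul (m := ks + 36 * Kv + 1) (pe_pow ks) (pe_add (m := 36 * Kv + 1) (pe_pow _)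
        (pe_const (k := 0) (by norm_num) (by norm_num)) (by omega) (by omega)) (by omega))
      (pe_add (m := 64 * n ^ 2 + K₀ + 3) (pe_mul (m := kb + K₀ + 2) (pe_pow kb) (pe_add (m := K₀ + 2) (pe_pow _)
        (pe_const (k := 0) (by norm_num) (by norm_num)) (by omega) (by omega)) (by omega))
        (pe_mul (m := kc + K₀ + 1) (pe_pow kc) (pe_pow _) (by omega)) (by omega) (by omega)) (by omega) (by omega)
  rw [← hke]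
  intro B hB e hI hbn S H hS hH hHS hbl T hT
  have hB2 : (2 : ℝ) ≤ B := by exact_mod_cast hB
  have hB1 : (1 : ℝ) ≤ B := by linarith
  have hB0 : (0 : ℝ) < B := by linarith
  have hkB := (hk B hB).2
  simp only at hkB
  have hS1 : (1 : ℝ) ≤ S := by exact_mod_cast hS
  have hS0 : (0 : ℝ) < S := by linarith
  have hH1 : (1 : ℝ) ≤ H := by exact_mod_cast hH
  have hlog : 0 ≤ Real.log H := Real.log_nonneg hH1
  rw [← hE]
  obtain ⟨W, hW⟩ : ∃ W : ℝ, W = (H : ℝ) ^ (2 / (n : ℝ)) * (1 + Real.log H) := ⟨_, rfl⟩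
  have hW0 : 0 ≤ W := by
    rw [hW]
    positivity
  have hSE : 1 ≤ (S : ℝ) ^ E := Real.one_le_rpow hS1 (by linarith)
  rw [← hW]
  -- the radius
  obtain ⟨R, hR⟩ : ∃ R : ℝ, R = 2 * ((B : ℝ) ^ K₀ * S) := ⟨_, rfl⟩
  have hBK : (1 : ℝ) ≤ (B : ℝ) ^ K₀ := one_le_pow₀ hB1
  have hBKS : (S : ℝ) ≤ (B : ℝ) ^ K₀ * S := le_mul_of_one_le_left hS0.le hBK
  have hSR : (S : ℝ) ≤ R := by
    rw [hR]
    linarith
  have hR1 : 1 ≤ R := hS1.trans hSR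
  have hR0 : 0 < R := by linarith
  have hRB : R ≤ (B : ℝ) ^ (K₀ + 1) * S := by
    rw [hR, pow_succ]
    have : 2 * ((B : ℝ) ^ K₀ * S) ≤ B * ((B : ℝ) ^ K₀ * S) := mul_le_mul_of_nonneg_right hB2 (by positivity)
    calc 2 * ((B : ℝ) ^ K₀ * S) ≤ B * ((B : ℝ) ^ K₀ * S) := this
      _ = _ := by ring
  have hRE : R ^ E ≤ (B : ℝ) ^ (K₀ + 1) * (S : ℝ) ^ E := by
    calc R ^ E ≤ ((B : ℝ) ^ (K₀ + 1) * S) ^ E := Real.rpow_le_rpow hR0.le hRB (by linarith)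
      _ = ((B : ℝ) ^ (K₀ + 1)) ^ E * (S : ℝ) ^ E := Real.mul_rpow (by positivity) hS0.le
      _ ≤ ((B : ℝ) ^ (K₀ + 1)) ^ (1 : ℝ) * (S : ℝ) ^ E := by
          apply mul_le_mul_of_nonneg_right _ (by positivity)
          exact Real.rpow_le_rpow_of_exponent_le (one_le_pow₀ hB1) hE1
      _ = _ := by rw [Real.rpow_one]
  have hTx : ∀ P ∈ T, |(P.1 : ℝ)| ≤ R / 2 ∧ |(P.2 : ℝ)| ≤ R / 2 := by
    intro P hP
    obtain ⟨_, p2, p3⟩ := hT P hP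
    have h1 : |(P.1 : ℝ)| ≤ (B : ℝ) ^ K₀ * S := by exact_mod_cast p3
    have h2 : |(P.2 : ℝ)| ≤ |(P.1 : ℝ)| := by exact_mod_cast p2
    rw [hR]
    constructor <;> linarith
  have hTF : ∀ P ∈ T, |((ev n e P.1 P.2 : ℤ) : ℝ)| ≤ H := fun P hP => by exact_mod_cast (hT P hP).1
  have hbn' : |e 0 n| ≤ (B : ℤ) := hbn 0 n (Nat.zero_add n)
  -- the coefficients
  have hb' : ∀ a b, a + b ≤ n → |(e a b : ℝ)| ≤ (B : ℝ) * R ^ (n - (a + b)) := by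
    intro a b hab
    rcases hab.lt_or_eq with h | h
    · have h1 : |(e a b : ℝ)| ≤ (S : ℝ) ^ (n - (a + b)) := by exact_mod_cast hbl a b h
      have h2 : (S : ℝ) ^ (n - (a + b)) ≤ R ^ (n - (a + b)) := pow_le_pow_left₀ hS0.le hSR _
      exact (h1.trans h2).trans (le_mul_of_one_le_left (by positivity) hB1)
    · have h1 : |(e a b : ℝ)| ≤ B := by exact_mod_cast hbn a b h
      rw [h, Nat.sub_self, pow_zero, mul_one]
      exact h1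
  -- the number `v`
  obtain ⟨v, hv⟩ : ∃ v : ℝ, v = R ^ (1 / 36 : ℝ) := ⟨_, rfl⟩
  have hv1 : 1 ≤ v := by
    rw [hv]
    exact Real.one_le_rpow hR1 (by norm_num)
  have hv0 : 0 < v := by linarith
  have hv36 : R = v ^ 36 := by
    rw [hv, ← Real.rpow_natCast (R ^ (1 / 36 : ℝ)) 36, ← Real.rpow_mul hR0.le]
    norm_num
  have hv35 : v ^ 35 = R ^ (35 / 36 : ℝ) := by
    rw [hv, ← Real.rpow_natCast (R ^ (1 / 36 : ℝ)) 35, ← Real.rpow_mul hR0.le]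
    norm_num
  have hkX : ∀ X : ℝ, X ≤ (B : ℝ) ^ ks * ((B : ℝ) ^ (36 * Kv) + 1) + ((B : ℝ) ^ kb * ((B : ℝ) ^ (K₀ + 1) + 1) +
      (B : ℝ) ^ kc * (B : ℝ) ^ (K₀ + 1)) → X * ((S : ℝ) ^ E + W) ≤ (B : ℝ) ^ k * ((S : ℝ) ^ E + W) := by
    intro X hX
    exact mul_le_mul_of_nonneg_right (hX.trans hkB) (by positivity)
  by_cases hvB : (B : ℝ) ^ Kv ≤ v
  · -- the main case
    obtain ⟨M, hM⟩ : ∃ M : ℕ, M = n * (n - 1) := ⟨_, rfl⟩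
    have hM1 : 1 ≤ M := by
      rw [hM]
      exact Nat.one_le_iff_ne_zero.2 (Nat.mul_ne_zero (by omega) (by omega))
    have hMr : (0 : ℝ) < M := by exact_mod_cast hM1
    have hMn : (M : ℝ) ≤ (n : ℝ) ^ 2 := by
      have : M ≤ n ^ 2 := by
        rw [hM, sq]
        exact Nat.mul_le_mul_left _ (by omega)
      exact_mod_cast this
    obtain ⟨Y, hY⟩ : ∃ Y : ℝ, Y = R ^ (1 - 1 / (36 * (M : ℝ))) := ⟨_, rfl⟩
    have hM36 : 1 / (36 * (M : ℝ)) ≤ 1 := by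
      rw [div_le_one (by positivity)]
      have : (1 : ℝ) ≤ M := by exact_mod_cast hM1
      linarith
    have hY1 : 1 ≤ Y := by
      rw [hY]
      exact Real.one_le_rpow hR1 (by linarith)
    have hYM : Y ^ M = 1 / v * R ^ M := by
      have e1 : (1 - 1 / (36 * (M : ℝ))) * M = -(1 / 36) + M := by
        field_simp
        ring
      have e2 : Y ^ M = R ^ ((1 - 1 / (36 * (M : ℝ))) * M) := by
        rw [hY, ← Real.rpow_natCast (R ^ (1 - 1 / (36 * (M : ℝ)))) M, ← Real.rpow_mul hR0.le]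
      rw [e2, e1, Real.rpow_add hR0, Real.rpow_neg hR0.le, Real.rpow_natCast, ← hv, inv_eq_one_div]
    have hYE : Y ≤ R ^ E := by
      rw [hY, hE]
      apply Real.rpow_le_rpow_of_exponent_le hR1
      have : 1 / (36 * (n : ℝ) ^ 2) ≤ 1 / (36 * (M : ℝ)) := by
        apply one_div_le_one_div_of_le (by positivity)
        linarith
      linarith
    have hvE : v ^ 35 ≤ R ^ E := by
      rw [hv35]
      exact Real.rpow_le_rpow_of_exponent_le hR1 hE0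
    -- the two parts
    obtain ⟨T₁, hT₁⟩ : ∃ T₁ : Finset (ℤ × ℤ), T₁ = T.filter fun P => |(((dis n e).eval P.1 : ℤ) : ℝ)| ≤ Y ^ (n * (n - 1)) := ⟨_, rfl⟩
    obtain ⟨T₂, hT₂⟩ : ∃ T₂ : Finset (ℤ × ℤ), T₂ = T.filter fun P => ¬ |(((dis n e).eval P.1 : ℤ) : ℝ)| ≤ Y ^ (n * (n - 1)) := ⟨_, rfl⟩
    have hcard : T.card = T₁.card + T₂.card := by
      rw [hT₁, hT₂, Finset.card_filter_add_card_filter_not]
    have h1 : (T₁.card : ℝ) ≤ (B : ℝ) ^ kb * (Y + W) := by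
      rw [hW]
      refine hbx B hB e hI hbn' Y H hY1 hH1 T₁ ?_
      intro P hP
      rw [hT₁, Finset.mem_filter] at hP
      exact ⟨hTF P hP.1, hP.2⟩
    have hHR : (H : ℝ) ^ 2 ≤ R ^ n := by
      have h2 : (H : ℝ) ^ 2 ≤ (S : ℝ) ^ n := by exact_mod_cast hHS
      exact h2.trans (pow_le_pow_left₀ hS0.le hSR n)
    have h2 : (T₂.card : ℝ) ≤ (B : ℝ) ^ kc * v ^ 35 := by
      refine hcz B hB e hI R v hvB hv36 hb' H hH hHR T₂ ?_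
      intro P hP
      rw [hT₂, Finset.mem_filter] at hP
      obtain ⟨hPT, hPd⟩ := hP
      push Not at hPd
      obtain ⟨a1, a2⟩ := hTx P hPT
      refine ⟨(hT P hPT).1, a1, a2, ?_⟩
      have h3 := hg B hB e hI R hR0 hb' P.1 (by linarith) (1 / v) (by
        rw [← hM, ← hYM, hM]
        exact hPd.le) (P.2 / R) (by
        rw [abs_div, abs_of_pos hR0, div_le_one hR0]
        linarith)
      have hBkg : (0 : ℝ) < (B : ℝ) ^ kg := by positivity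
      rw [div_le_iff₀ hv0] at h3
      rw [div_le_iff₀ (by positivity)]
      refine h3.trans (le_of_eq ?_)
      ring
    have h3 : (T.card : ℝ) ≤ ((B : ℝ) ^ kb * ((B : ℝ) ^ (K₀ + 1) + 1) + (B : ℝ) ^ kc * (B : ℝ) ^ (K₀ + 1)) * ((S : ℝ) ^ E + W) := by
      have h4 : (T.card : ℝ) = T₁.card + T₂.card := by exact_mod_cast hcard
      have hBK1 : (1 : ℝ) ≤ (B : ℝ) ^ (K₀ + 1) := one_le_pow₀ hB1
      have h5 : Y + W ≤ ((B : ℝ) ^ (K₀ + 1) + 1) * ((S : ℝ) ^ E + W) := by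
        have h6 := hYE.trans hRE
        have h7 : 0 ≤ (B : ℝ) ^ (K₀ + 1) * W := by positivity
        nlinarith
      have h8 : v ^ 35 ≤ (B : ℝ) ^ (K₀ + 1) * ((S : ℝ) ^ E + W) := by
        have h6 := hvE.trans hRE
        have h7 : 0 ≤ (B : ℝ) ^ (K₀ + 1) * W := by positivity
        nlinarith
      rw [h4]
      calc (T₁.card : ℝ) + T₂.card ≤ (B : ℝ) ^ kb * (Y + W) + (B : ℝ) ^ kc * v ^ 35 := add_le_add h1 h2
        _ ≤ (B : ℝ) ^ kb * (((B : ℝ) ^ (K₀ + 1) + 1) * ((S : ℝ) ^ E + W)) +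
            (B : ℝ) ^ kc * ((B : ℝ) ^ (K₀ + 1) * ((S : ℝ) ^ E + W)) := by gcongr
        _ = _ := by ring
    refine h3.trans (hkX _ ?_)
    have : 0 ≤ (B : ℝ) ^ ks * ((B : ℝ) ^ (36 * Kv) + 1) := by positivity
    linarith
  · -- small `v`
    push Not at hvB
    have hRs : R ≤ (B : ℝ) ^ (36 * Kv) := by
      rw [hv36]
      calc v ^ 36 ≤ ((B : ℝ) ^ Kv) ^ 36 := pow_le_pow_left₀ hv0.le hvB.le 36
        _ = _ := by rw [← pow_mul, mul_comm]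
    have h1 := hsx B hB e hI hbn' R H hR1 hH1 T (fun P hP => ⟨hTF P hP, by linarith [(hTx P hP).1]⟩)
    rw [← hW] at h1
    have h2 : (B : ℝ) ^ ks * (R + W) ≤ (B : ℝ) ^ ks * ((B : ℝ) ^ (36 * Kv) + 1) * ((S : ℝ) ^ E + W) := by
      rw [mul_assoc]
      apply mul_le_mul_of_nonneg_left _ (by positivity)
      have h3 : 0 ≤ (B : ℝ) ^ (36 * Kv) := by positivity
      nlinarith [mul_nonneg h3 hW0]
    refine (h1.trans h2).trans (hkX _ ?_)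
    have : 0 ≤ (B : ℝ) ^ kb * ((B : ℝ) ^ (K₀ + 1) + 1) + (B : ℝ) ^ kc * (B : ℝ) ^ (K₀ + 1) := by positivity
    linarith

theorem smy (n : ℕ) (hn : 4 ≤ n) (K₀ : ℕ) : ∃ k : ℕ, ∀ B : ℕ, 2 ≤ B → ∀ e : ℕ → ℕ → ℤ, Ir n e →
    (∀ a b, a + b = n → |e a b| ≤ (B : ℤ)) → ∀ (S H : ℕ), 1 ≤ S → 1 ≤ H → H ^ 2 ≤ S ^ n →
    (∀ a b, a + b < n → |e a b| ≤ ((S : ℤ) ^ (n - (a + b)))) → ∀ T : Finset (ℤ × ℤ),
    (∀ P ∈ T, |ev n e P.1 P.2| ≤ (H : ℤ) ∧ |P.2| ≤ |P.1| ∧ |P.1| ≤ (B : ℤ) ^ K₀ * S) →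
    (T.card : ℝ) ≤ (B : ℝ) ^ k * ((S : ℝ) ^ (1 - 1 / (36 * (n : ℝ) ^ 2)) + (H : ℝ) ^ (2 / (n : ℝ)) * (1 + Real.log H)) :=
  ⟨900 * n ^ 2 + K₀, smye n hn K₀⟩

end Pool.Agent.H99.VY
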