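import Pool.Agent.H8.VY.Maine
import Pool.Agent.H88.TF.Nrr
import Pool.Agent.H88.TF.Wnr
import Pool.Agent.H88.TF.Dgr
import Pool.Agent.H88.TF.Exr
import Pool.Agent.H88.TF.Ncr

/-! # [H99 VY PAIRS] all curves `F + L`, `deg L ≤ n - 4`, `|coefficients of L| ≤ H`, together: at most `80 n^3` far integer points (no flex at infinity) -/

namespace Pool.Agent.H99.VY

open MvPolynomial Pool.Agent.H8.AA Pool.Agent.H8.VX Pool.Agent.H8.VY

/-- pairs (polynomial `L` of degree `≤ n - 4`, integer zero of `F + L` outside the box), no flex at infinity: number `≤ 80 n^3` -/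
theorem pairs (n : ℕ) (hn : 4 ≤ n) (B S H : ℕ) (hB : 2 ≤ B) (hS : 1 ≤ S) (hH : 1 ≤ H)
    (F : MvPolynomial (Fin 2) ℤ) (hF : F.totalDegree ≤ n)
    (hirr : Irreducible (map (Int.castRingHom ℚ) (homogeneousComponent n F)))
    (hFB : ∀ m : Fin 2 →₀ ℕ, m.degree = n → |F.coeff m| ≤ (B : ℤ))
    (hFb : ∀ m : Fin 2 →₀ ℕ, m.degree < n → |F.coeff m| ≤ (S : ℤ) ^ (n - m.degree))
    (hflex : ∀ t b : ℝ, n - 2 ≤ (aeval ![Polynomial.X, Polynomial.C t * Polynomial.X + Polynomial.C b] F : Polynomial ℝ).natDegree) :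
    {q : MvPolynomial (Fin 2) ℤ × (Fin 2 → ℤ) | q.1.totalDegree ≤ n - 4 ∧ (∀ m, |q.1.coeff m| ≤ (H : ℤ)) ∧
      eval q.2 (F + q.1) = 0 ∧ ((B : ℤ) * S ^ n * H) ^ (700 * n ^ 5) < max |q.2 0| |q.2 1|}.encard ≤ 80 * n ^ 3 := by
  classical
  obtain ⟨h, hh⟩ : ∃ h : ℕ, h = B * S ^ n * H := ⟨_, rfl⟩
  have hSn1 : 1 ≤ S ^ n := Nat.one_le_pow _ _ hS
  have hBh : B ≤ h := by
    rw [hh]
    exact (Nat.le_mul_of_pos_right _ hSn1).trans (Nat.le_mul_of_pos_right _ hH)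
  have hsum : S ^ n + H ≤ h := by
    rw [hh]
    have h1 : S ^ n + H ≤ 2 * (S ^ n * H) := by nlinarith
    have h2 : 2 * (S ^ n * H) ≤ B * (S ^ n * H) := Nat.mul_le_mul_right _ hB
    rw [mul_assoc]
    exact h1.trans h2
  have hdeg : F.totalDegree = n := by
    refine le_antisymm hF ?_
    by_contra hcon
    push Not at hcon
    have h1 : homogeneousComponent n F = 0 := homogeneousComponent_eq_zero n F hcon
    rw [h1, map_zero] at hirr
    exact hirr.ne_zero rfl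
  have hht : ∀ L : MvPolynomial (Fin 2) ℤ, L.totalDegree ≤ n - 4 → (∀ m, |L.coeff m| ≤ (H : ℤ)) →
      ∀ m, |(F + L).coeff m| ≤ (h : ℤ) := by
    intro L hL hLH m
    have hsz : (S : ℤ) ^ n + H ≤ h := by exact_mod_cast hsum
    have hSd : ∀ d, (S : ℤ) ^ (n - d) ≤ (S : ℤ) ^ n := by
      intro d
      exact_mod_cast Nat.pow_le_pow_right hS (by omega)
    have hL0 : ∀ m : Fin 2 →₀ ℕ, n ≤ m.degree → L.coeff m = 0 := by
      intro m hm
      by_contra h3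
      have h4 := le_totalDegree (MvPolynomial.mem_support_iff.2 h3)
      have h5 : (m.sum fun _ e => e) = m.degree := rfl
      omega
    rw [coeff_add]
    rcases lt_trichotomy m.degree n with h1 | h1 | h1
    · calc |F.coeff m + L.coeff m| ≤ |F.coeff m| + |L.coeff m| := abs_add_le _ _
        _ ≤ (S : ℤ) ^ n + H := add_le_add ((hFb m h1).trans (hSd _)) (hLH m)
        _ ≤ h := hsz
    · rw [hL0 m h1.ge, add_zero]
      refine (hFB m h1).trans ?_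
      exact_mod_cast hBh
    · have h2 : F.coeff m = 0 := by
        by_contra h3
        have h4 := le_totalDegree (MvPolynomial.mem_support_iff.2 h3)
        have h5 : (m.sum fun _ e => e) = m.degree := rfl
        omega
      rw [hL0 m h1.le, add_zero, h2, abs_zero]
      positivity
  obtain ⟨g, hg⟩ : ∃ g : MvPolynomial (Fin 2) ℤ × (Fin 2 → ℤ) → MvPolynomial (Fin 2) ℤ × (ℤ × ℤ),
      g = fun q => (F + q.1, (q.2 0, q.2 1)) := ⟨_, rfl⟩
  have hinj : Function.Injective g := by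
    intro q r hqr
    rw [hg] at hqr
    simp only [Prod.mk.injEq, add_right_inj] at hqr
    refine Prod.ext hqr.1 ?_
    funext i
    fin_cases i
    · exact hqr.2.1
    · exact hqr.2.2
  have hfin := Pool.Agent.H72.ES.encard_le_of_finset {q : MvPolynomial (Fin 2) ℤ × (Fin 2 → ℤ) |
      q.1.totalDegree ≤ n - 4 ∧ (∀ m, |q.1.coeff m| ≤ (H : ℤ)) ∧
      eval q.2 (F + q.1) = 0 ∧ ((B : ℤ) * S ^ n * H) ^ (700 * n ^ 5) < max |q.2 0| |q.2 1|} (80 * n ^ 3) (by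
    intro T hT
    rw [← Finset.card_image_of_injective T hinj]
    refine Pool.Agent.H72.ES.bounded_exceptions hn (hB.trans hBh) F hdeg hirr hflex (T.image g) ?_
    intro q hq
    obtain ⟨r, hr, rfl⟩ := Finset.mem_image.1 hq
    obtain ⟨h1, h2, h3, h4⟩ := hT r hr
    have hP2 : ![r.2 0, r.2 1] = r.2 := by
      funext i
      fin_cases i <;> rfl
    rw [hg]
    refine ⟨?_, ?_, ?_, ?_⟩
    · show (F + r.1 - F).totalDegree ≤ n - 4
      rw [add_sub_cancel_left]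
      exact h1
    · exact hht _ h1 h2
    · show eval ![r.2 0, r.2 1] (F + r.1) = 0
      rw [hP2]
      exact h3
    · show (h : ℤ) ^ (600 * n ^ 5) < max |r.2 0| |r.2 1|
      rw [hh]
      push_cast
      exact lt_of_le_of_lt (box_le n hn B S H hB hS hH _ (by omega)) h4)
  refine hfin.trans ?_
  push_cast
  exact le_rfl

/-- pairs (polynomial `L` of degree `≤ 1`, integer zero of `F + L` outside the box), no line of contact `≥ n - 2` at infinity: number `≤ 480 n^3` -/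
theorem pairs1 (n : ℕ) (hn : 5 ≤ n) (B S H : ℕ) (hB : 2 ≤ B) (hS : 1 ≤ S) (hH : 1 ≤ H)
    (F : MvPolynomial (Fin 2) ℤ) (hF : F.totalDegree ≤ n)
    (hirr : Irreducible (map (Int.castRingHom ℚ) (homogeneousComponent n F)))
    (hFB : ∀ m : Fin 2 →₀ ℕ, m.degree = n → |F.coeff m| ≤ (B : ℤ))
    (hFb : ∀ m : Fin 2 →₀ ℕ, m.degree < n → |F.coeff m| ≤ (S : ℤ) ^ (n - m.degree))
    (hflex : ∀ t b : ℝ, 3 ≤ (aeval ![Polynomial.X, Polynomial.C t * Polynomial.X + Polynomial.C b] F : Polynomial ℝ).natDegree) :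
    {q : MvPolynomial (Fin 2) ℤ × (Fin 2 → ℤ) | q.1.totalDegree ≤ 1 ∧ (∀ m, |q.1.coeff m| ≤ (H : ℤ)) ∧
      eval q.2 (F + q.1) = 0 ∧ ((B : ℤ) * S ^ n * H) ^ (700 * n ^ 5) < max |q.2 0| |q.2 1|}.encard ≤ 480 * n ^ 3 := by
  classical
  obtain ⟨h, hh⟩ : ∃ h : ℕ, h = B * S ^ n * H := ⟨_, rfl⟩
  have hSn1 : 1 ≤ S ^ n := Nat.one_le_pow _ _ hS
  have hBh : B ≤ h := by
    rw [hh]
    exact (Nat.le_mul_of_pos_right _ hSn1).trans (Nat.le_mul_of_pos_right _ hH)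
  have hsum : S ^ n + H ≤ h := by
    rw [hh]
    have h1 : S ^ n + H ≤ 2 * (S ^ n * H) := by nlinarith
    have h2 : 2 * (S ^ n * H) ≤ B * (S ^ n * H) := Nat.mul_le_mul_right _ hB
    rw [mul_assoc]
    exact h1.trans h2
  have hdeg : F.totalDegree = n := by
    refine le_antisymm hF ?_
    by_contra hcon
    push Not at hcon
    have h1 : homogeneousComponent n F = 0 := homogeneousComponent_eq_zero n F hcon
    rw [h1, map_zero] at hirr
    exact hirr.ne_zero rfl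
  have hht : ∀ L : MvPolynomial (Fin 2) ℤ, L.totalDegree ≤ 1 → (∀ m, |L.coeff m| ≤ (H : ℤ)) →
      ∀ m, |(F + L).coeff m| ≤ (h : ℤ) := by
    intro L hL hLH m
    have hsz : (S : ℤ) ^ n + H ≤ h := by exact_mod_cast hsum
    have hSd : ∀ d, (S : ℤ) ^ (n - d) ≤ (S : ℤ) ^ n := by
      intro d
      exact_mod_cast Nat.pow_le_pow_right hS (by omega)
    have hL0 : ∀ m : Fin 2 →₀ ℕ, n ≤ m.degree → L.coeff m = 0 := by
      intro m hm
      by_contra h3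
      have h4 := le_totalDegree (MvPolynomial.mem_support_iff.2 h3)
      have h5 : (m.sum fun _ e => e) = m.degree := rfl
      omega
    rw [coeff_add]
    rcases lt_trichotomy m.degree n with h1 | h1 | h1
    · calc |F.coeff m + L.coeff m| ≤ |F.coeff m| + |L.coeff m| := abs_add_le _ _
        _ ≤ (S : ℤ) ^ n + H := add_le_add ((hFb m h1).trans (hSd _)) (hLH m)
        _ ≤ h := hsz
    · rw [hL0 m h1.ge, add_zero]
      refine (hFB m h1).trans ?_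
      exact_mod_cast hBh
    · have h2 : F.coeff m = 0 := by
        by_contra h3
        have h4 := le_totalDegree (MvPolynomial.mem_support_iff.2 h3)
        have h5 : (m.sum fun _ e => e) = m.degree := rfl
        omega
      rw [hL0 m h1.le, add_zero, h2, abs_zero]
      positivity
  obtain ⟨g, hg⟩ : ∃ g : MvPolynomial (Fin 2) ℤ × (Fin 2 → ℤ) → MvPolynomial (Fin 2) ℤ × (ℤ × ℤ),
      g = fun q => (F + q.1, (q.2 0, q.2 1)) := ⟨_, rfl⟩
  have hinj : Function.Injective g := by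
    intro q r hqr
    rw [hg] at hqr
    simp only [Prod.mk.injEq, add_right_inj] at hqr
    refine Prod.ext hqr.1 ?_
    funext i
    fin_cases i
    · exact hqr.2.1
    · exact hqr.2.2
  have hfin := Pool.Agent.H72.ES.encard_le_of_finset {q : MvPolynomial (Fin 2) ℤ × (Fin 2 → ℤ) |
      q.1.totalDegree ≤ 1 ∧ (∀ m, |q.1.coeff m| ≤ (H : ℤ)) ∧
      eval q.2 (F + q.1) = 0 ∧ ((B : ℤ) * S ^ n * H) ^ (700 * n ^ 5) < max |q.2 0| |q.2 1|} (480 * n ^ 3) (by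
    intro T hT
    rw [← Finset.card_image_of_injective T hinj]
    refine Pool.Agent.H88.TF.nrr (Pool.Agent.H88.TF.wnr Pool.Agent.H88.TF.exr (Pool.Agent.H88.TF.ncr Pool.Agent.H88.TF.cbl Pool.Agent.H88.TF.cbg)) Pool.Agent.H88.TF.dgr n h hn (hB.trans hBh) F hdeg hirr hflex (T.image g) ?_
    intro q hq
    obtain ⟨r, hr, rfl⟩ := Finset.mem_image.1 hq
    obtain ⟨h1, h2, h3, h4⟩ := hT r hr
    have hP2 : ![r.2 0, r.2 1] = r.2 := by
      funext i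
      fin_cases i <;> rfl
    rw [hg]
    refine ⟨?_, ?_, ?_, ?_⟩
    · show (F + r.1 - F).totalDegree ≤ 1
      rw [add_sub_cancel_left]
      exact h1
    · exact hht _ h1 h2
    · show eval ![r.2 0, r.2 1] (F + r.1) = 0
      rw [hP2]
      exact h3
    · show (h : ℤ) ^ (600 * n ^ 5) < max |r.2 0| |r.2 1|
      rw [hh]
      push_cast
      exact lt_of_le_of_lt (box_le n (by omega) B S H hB hS hH _ (by omega)) h4)
  refine hfin.trans ?_
  push_cast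
  exact le_rfl

/-- THEOREM VY, explicit, the clause without flexes for all `F + L` -/
theorem finp (n : ℕ) (hn : 4 ≤ n) (B S H : ℕ) (hB : 2 ≤ B) (hS : 1 ≤ S) (hH : 1 ≤ H)
    (F : MvPolynomial (Fin 2) ℤ) (hF : F.totalDegree ≤ n)
    (hirr : Irreducible (map (Int.castRingHom ℚ) (homogeneousComponent n F)))
    (hFB : ∀ m : Fin 2 →₀ ℕ, m.degree = n → |F.coeff m| ≤ (B : ℤ))
    (hFb : ∀ m : Fin 2 →₀ ℕ, m.degree < n → |F.coeff m| ≤ (S : ℤ) ^ (n - m.degree)) :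
    {P : Fin 2 → ℤ | |eval P F| ≤ (H : ℤ)}.Finite ∧
    (({P : Fin 2 → ℤ | |eval P F| ≤ (H : ℤ)}.ncard : ℕ) : ℝ) ≤
      (B : ℝ) ^ (3000 * n ^ 4) * ((S : ℝ) ^ (1 - 1 / (36 * (n : ℝ) ^ 2)) + (H : ℝ) ^ (2 / (n : ℝ)) * (1 + Real.log H)) ∧
    (({c : ℤ | |c| ≤ (H : ℤ) ∧ ∃ P : Fin 2 → ℤ, eval P (F + C c) = 0}.ncard : ℕ) : ℝ) ≤
      (B : ℝ) ^ (3000 * n ^ 4) * ((S : ℝ) ^ (1 - 1 / (36 * (n : ℝ) ^ 2)) + (H : ℝ) ^ (2 / (n : ℝ)) * (1 + Real.log H)) ∧
    (({P : Fin 2 → ℤ | |eval P F| ≤ (H : ℤ) ∧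
      ((B : ℤ) * S ^ n * H) ^ (700 * n ^ 5) < max |P 0| |P 1|}.ncard : ℕ) : ℝ) ≤ 360 * n ^ 4 * (H : ℝ) ^ (1 / (n : ℝ)) ∧
    (({c : ℤ | |c| ≤ (H : ℤ) ∧ ∃ P : Fin 2 → ℤ, eval P (F + C c) = 0 ∧
      ((B : ℤ) * S ^ n * H) ^ (700 * n ^ 5) < max |P 0| |P 1|}.ncard : ℕ) : ℝ) ≤ 360 * n ^ 4 * (H : ℝ) ^ (1 / (n : ℝ)) ∧
    ((∀ t b : ℝ, n - 2 ≤ (aeval ![Polynomial.X, Polynomial.C t * Polynomial.X + Polynomial.C b] F : Polynomial ℝ).natDegree) →
      {q : MvPolynomial (Fin 2) ℤ × (Fin 2 → ℤ) | q.1.totalDegree ≤ n - 4 ∧ (∀ m, |q.1.coeff m| ≤ (H : ℤ)) ∧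
        eval q.2 (F + q.1) = 0 ∧ ((B : ℤ) * S ^ n * H) ^ (700 * n ^ 5) < max |q.2 0| |q.2 1|}.encard ≤ 80 * n ^ 3) ∧
    (5 ≤ n → (∀ t b : ℝ, 3 ≤ (aeval ![Polynomial.X, Polynomial.C t * Polynomial.X + Polynomial.C b] F : Polynomial ℝ).natDegree) →
      {q : MvPolynomial (Fin 2) ℤ × (Fin 2 → ℤ) | q.1.totalDegree ≤ 1 ∧ (∀ m, |q.1.coeff m| ≤ (H : ℤ)) ∧
        eval q.2 (F + q.1) = 0 ∧ ((B : ℤ) * S ^ n * H) ^ (700 * n ^ 5) < max |q.2 0| |q.2 1|}.encard ≤ 480 * n ^ 3) := by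
  obtain ⟨h1, h2, h3, h4⟩ := fine n hn B S H hB hS hH F hF hirr hFB hFb
  obtain ⟨h5, h6⟩ := h4 _ (Or.inl rfl)
  exact ⟨h1, h2, h3, h5, h6, fun hflex => pairs n hn B S H hB hS hH F hF hirr hFB hFb hflex,
    fun hn5 hflex => pairs1 n hn5 B S H hB hS hH F hF hirr hFB hFb hflex⟩

end Pool.Agent.H99.VY
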